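import Pool.Agent.FC602.Quad

/-! Deletion of a few points. -/

set_option autoImplicit false

namespace Pool.Agent.FC602

open Finset Pool.Agent.TH124.KE

lemma bel_sdiff {V D : Finset (ℝ × ℝ)} (hD : D ⊆ V) (τ : ℝ) (p : ℝ × ℝ) :
    bel V τ p = bel (V \ D) τ p + #{r ∈ D | hh τ r < hh τ p} := by
  classical
  unfold bel
  rw [← card_union_of_disjoint]
  · congr 1
    ext r
    simp only [mem_filter, mem_union, mem_sdiff]
    constructor
    · rintro ⟨h1, h2⟩
      by_cases h3 : r ∈ D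
      · exact Or.inr ⟨h3, h2⟩
      · exact Or.inl ⟨⟨h1, h3⟩, h2⟩
    · rintro (⟨⟨h1, h3⟩, h2⟩ | ⟨h3, h2⟩)
      · exact ⟨h1, h2⟩
      · exact ⟨hD h3, h2⟩
  · rw [disjoint_left]
    intro r h1 h2
    rw [mem_filter, mem_sdiff] at h1
    exact h1.1.2 (mem_filter.mp h2).1

open Classical in
/-- the averaging argument -/
theorem del_core {V : Finset (ℝ × ℝ)} {M m : ℕ} (hcard : #V = 2 * M) (hm : 1 ≤ m)
    (hM : 4 * m + 1 ≤ M)
    (S : Fin 4 → Finset (ℝ × ℝ)) (hSV : ∀ i, S i ⊆ V)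
    (hdis : ∀ i j, i ≠ j → Disjoint (S i) (S j)) (hS : ∀ i, 2 * m ≤ #(S i))
    (hmiss : ∀ τ h1, ∃ i, (∀ r ∈ S i, hh τ r < h1) ∨ (∀ r ∈ S i, h1 < hh τ r)) :
    ∃ D ⊆ V, #D ≤ 8 * (m - 1) ∧ Even #D ∧
      m * #(kes (V \ D) (#(V \ D) / 2 - 1)) ≤ #(kesW V (Icc (M - 1 - 4 * m) (M - 1 + 4 * m))) := by
  have hE : ∀ i : Fin 4, ∀ k : Fin m, ∃ E ⊆ S i, #E = 2 * (k : ℕ) := by
    intro i k
    exact exists_subset_card_eq (by have := hS i; have := k.2; omega)
  choose E hES hEc using hE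
  set D : (Fin 4 → Fin m) → Finset (ℝ × ℝ) := fun c => univ.biUnion (fun i => E i (c i)) with hD
  have hDV : ∀ c, D c ⊆ V := by
    intro c
    rw [hD]
    intro r hr
    rw [mem_biUnion] at hr
    obtain ⟨i, -, hi⟩ := hr
    exact hSV i (hES i _ hi)
  have hdisE : ∀ (c : Fin 4 → Fin m), Set.PairwiseDisjoint (↑(univ : Finset (Fin 4)))
      (fun i => E i (c i)) := by
    intro c i _ j _ hij
    exact disjoint_of_subset_left (hES i _) (disjoint_of_subset_right (hES j _) (hdis i j hij))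
  have hDc : ∀ c, #(D c) = 2 * ∑ i, (c i : ℕ) := by
    intro c
    rw [hD, card_biUnion (hdisE c), mul_sum]
    exact sum_congr rfl fun i _ => hEc i (c i)
  have hsum : ∀ c : Fin 4 → Fin m, ∑ i, (c i : ℕ) ≤ 4 * (m - 1) := by
    intro c
    have : ∑ i : Fin 4, (c i : ℕ) ≤ ∑ i : Fin 4, (m - 1) :=
      sum_le_sum fun i _ => by have := (c i).2; omega
    simpa using this
  have hVD : ∀ c, #(V \ D c) / 2 - 1 = M - ∑ i, (c i : ℕ) - 1 := by
    intro c
    rw [card_sdiff_of_subset (hDV c), hDc, hcard]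
    have := hsum c
    omega
  set b : ℝ → ℝ × ℝ → Fin 4 → Fin m → ℕ := fun τ p i k => #{r ∈ E i k | hh τ r < hh τ p} with hb
  have hbD : ∀ (c : Fin 4 → Fin m) (τ : ℝ) (p : ℝ × ℝ), #{r ∈ D c | hh τ r < hh τ p} =
      ∑ i, b τ p i (c i) := by
    intro c τ p
    have e : {r ∈ D c | hh τ r < hh τ p} =
        univ.biUnion (fun i => {r ∈ E i (c i) | hh τ r < hh τ p}) := by
      rw [hD]
      simp only
      rw [filter_biUnion]
    rw [e, card_biUnion]
    intro i _ j _ hij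
    exact disjoint_of_subset_left (filter_subset _ _) (disjoint_of_subset_right
      (filter_subset _ _) (disjoint_of_subset_left (hES i _)
        (disjoint_of_subset_right (hES j _) (hdis i j hij))))
  have hble : ∀ τ p i k, b τ p i k ≤ 2 * (k : ℕ) := by
    intro τ p i k
    rw [← hEc i k]
    exact card_filter_le _ _
  -- membership
  have hmem : ∀ (c : Fin 4 → Fin m) e, e ∈ kes (V \ D c) (#(V \ D c) / 2 - 1) →
      e.1 ∈ V ∧ e.2 ∈ V ∧ e.1.1 < e.2.1 ∧ bel V (sl e.1 e.2) e.1 =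
        M - ∑ i, (c i : ℕ) - 1 + ∑ i, b (sl e.1 e.2) e.1 i (c i) := by
    intro c e he
    rw [mem_kes] at he
    obtain ⟨h1, h2, h3, h4⟩ := he
    refine ⟨(mem_sdiff.mp h1).1, (mem_sdiff.mp h2).1, h3, ?_⟩
    rw [bel_sdiff (hDV c), h4, hVD, hbD]
  set W := Icc (M - 1 - 4 * m) (M - 1 + 4 * m) with hW
  have hsub : ∀ c, kes (V \ D c) (#(V \ D c) / 2 - 1) ⊆ kesW V W := by
    intro c e he
    obtain ⟨h1, h2, h3, h4⟩ := hmem c e he
    rw [mem_kesW]
    refine ⟨h1, h2, h3, ?_⟩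
    rw [h4, hW, mem_Icc]
    have h5 := hsum c
    have h6 : ∑ i, b (sl e.1 e.2) e.1 i (c i) ≤ 2 * ∑ i, (c i : ℕ) := by
      rw [mul_sum]
      exact sum_le_sum fun i _ => hble _ _ _ _
    omega
  -- multiplicity
  have hmul : ∀ e : (ℝ × ℝ) × (ℝ × ℝ),
      #{c : Fin 4 → Fin m | e ∈ kes (V \ D c) (#(V \ D c) / 2 - 1)} ≤ m ^ 3 := by
    intro e
    obtain ⟨i, hi⟩ := hmiss (sl e.1 e.2) (hh (sl e.1 e.2) e.1)
    have hbi : (∀ k, b (sl e.1 e.2) e.1 i k = 2 * (k : ℕ)) ∨ (∀ k, b (sl e.1 e.2) e.1 i k = 0) := by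
      rcases hi with hi | hi
      · left
        intro k
        rw [hb]
        simp only
        rw [filter_true_of_mem (fun r hr => hi r (hES i k hr)), hEc]
      · right
        intro k
        rw [hb]
        simp only
        rw [filter_false_of_mem (fun r hr => not_lt.mpr (hi r (hES i k hr)).le), card_empty]
    have hcardF : #(univ : Finset (Fin 3 → Fin m)) = m ^ 3 := by simp
    rw [← hcardF]
    refine card_le_card_of_injOn (fun c => i.removeNth c) (fun c _ => mem_coe.mpr (mem_univ _)) ?_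
    intro c hc c' hc' h
    rw [mem_coe, mem_filter] at hc hc'
    have h1 := (hmem c e hc.2).2.2.2
    have h2 := (hmem c' e hc'.2).2.2.2
    have h3 : ∀ j, j ≠ i → c j = c' j := by
      intro j hj
      obtain ⟨l, rfl⟩ := Fin.exists_succAbove_eq hj
      exact congrFun h l
    have h4 : ∑ j ∈ univ.erase i, (c j : ℕ) = ∑ j ∈ univ.erase i, (c' j : ℕ) :=
      sum_congr rfl fun j hj => by rw [h3 j (ne_of_mem_erase hj)]
    have h5 : ∑ j ∈ univ.erase i, b (sl e.1 e.2) e.1 j (c j) =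
        ∑ j ∈ univ.erase i, b (sl e.1 e.2) e.1 j (c' j) :=
      sum_congr rfl fun j hj => by rw [h3 j (ne_of_mem_erase hj)]
    have h6 : (c i : ℕ) = c' i := by
      have s1 := hsum c
      have s2 := hsum c'
      rw [← add_sum_erase univ _ (mem_univ i), ← add_sum_erase univ _ (mem_univ i)] at h1 h2
      rw [← add_sum_erase univ _ (mem_univ i)] at s1 s2
      rw [h4] at h1 s1
      rw [h5] at h1
      rcases hbi with hbi | hbi
      · rw [hbi] at h1 h2
        omega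
      · rw [hbi] at h1 h2
        omega
    funext j
    by_cases hj : j = i
    · subst hj
      exact Fin.ext h6
    · exact h3 j hj
  -- average
  by_contra hcon
  push Not at hcon
  have h1 : ∀ c : Fin 4 → Fin m, #(kesW V W) < m * #(kes (V \ D c) (#(V \ D c) / 2 - 1)) := by
    intro c
    refine hcon (D c) (hDV c) ?_ ?_
    · rw [hDc]
      have := hsum c
      omega
    · rw [hDc]
      exact even_two_mul _
  have hne : (univ : Finset (Fin 4 → Fin m)).Nonempty := by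
    have : Nonempty (Fin m) := ⟨⟨0, hm⟩⟩
    exact univ_nonempty
  have h2 := sum_lt_sum_of_nonempty hne (fun c _ => h1 c)
  rw [sum_const, ← mul_sum] at h2
  have h3 : ∑ c : Fin 4 → Fin m, #(kes (V \ D c) (#(V \ D c) / 2 - 1)) ≤ #(kesW V W) * m ^ 3 := by
    have e1 : ∀ c : Fin 4 → Fin m, #(kes (V \ D c) (#(V \ D c) / 2 - 1)) =
        ∑ e ∈ kesW V W, if e ∈ kes (V \ D c) (#(V \ D c) / 2 - 1) then 1 else 0 := by
      intro c
      rw [← card_filter, filter_mem_eq_inter, inter_eq_right.mpr (hsub c)]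
    simp_rw [e1]
    rw [sum_comm]
    rw [← smul_eq_mul]
    refine sum_le_card_nsmul _ _ _ ?_
    intro e _
    rw [← card_filter]
    exact hmul e
  have h4 : #(univ : Finset (Fin 4 → Fin m)) = m ^ 4 := by simp
  rw [h4, smul_eq_mul] at h2
  have h5 := Nat.mul_le_mul_left m h3
  have h6 : m * (#(kesW V W) * m ^ 3) = m ^ 4 * #(kesW V W) := by ring
  omega

/-- **deletion**, in terms of the number `m` -/
theorem del_m {V : Finset (ℝ × ℝ)} (hV : GP V) (hE : Even #V) {m : ℕ} (hm : 1 ≤ m)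
    (hN : 8 * m + 3 ≤ #V) :
    ∃ D ⊆ V, #D ≤ 8 * (m - 1) ∧ Even #D ∧
      (m : ℝ) * #(kes (V \ D) (#(V \ D) / 2 - 1)) ≤
        18 * #V * ((#V : ℝ) ^ (1 / 3 : ℝ) * (9 * m : ℝ) ^ (2 / 3 : ℝ)) := by
  classical
  obtain ⟨M, hM⟩ := hE
  have hcard : #V = 2 * M := by omega
  obtain ⟨x0, σ, h0, q0, q1, q2, q3⟩ := quad hV (m := 2 * m) (by omega)
  set Q : Fin 4 → (ℝ × ℝ) → Prop := ![fun r => r.1 < x0 ∧ hh σ r < h0,
    fun r => r.1 < x0 ∧ h0 < hh σ r, fun r => x0 < r.1 ∧ hh σ r < h0,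
    fun r => x0 < r.1 ∧ h0 < hh σ r] with hQ
  have hQd : ∀ i j : Fin 4, i ≠ j → ∀ r, Q i r → Q j r → False := by
    intro i j hij r h1 h2
    fin_cases i <;> fin_cases j <;> simp [hQ] at hij h1 h2 <;>
      first
        | exact absurd rfl hij
        | (obtain ⟨a1, a2⟩ := h1; obtain ⟨b1, b2⟩ := h2; linarith)
  obtain ⟨D, hD1, hD2, hD3, hD4⟩ := del_core hcard hm (by omega) (fun i => V.filter (Q i))
    (fun i => filter_subset _ _) (by
      intro i j hij
      rw [disjoint_left]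
      intro r h1 h2
      exact hQd i j hij r (mem_filter.mp h1).2 (mem_filter.mp h2).2) (by
      intro i
      fin_cases i
      · refine q0.trans (card_le_card fun r hr => ?_)
        rw [mem_filter] at hr ⊢
        exact hr
      · refine q1.trans (card_le_card fun r hr => ?_)
        rw [mem_filter] at hr ⊢
        exact hr
      · refine q2.trans (card_le_card fun r hr => ?_)
        rw [mem_filter] at hr ⊢
        exact hr
      · refine q3.trans (card_le_card fun r hr => ?_)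
        rw [mem_filter] at hr ⊢
        exact hr) (by
      intro τ h1
      rcases miss x0 σ h0 τ h1 with h | h | h | h
      · exact ⟨0, Or.inl fun r hr => h r (mem_filter.mp hr).2⟩
      · exact ⟨1, Or.inr fun r hr => h r (mem_filter.mp hr).2⟩
      · exact ⟨2, Or.inl fun r hr => h r (mem_filter.mp hr).2⟩
      · exact ⟨3, Or.inr fun r hr => h r (mem_filter.mp hr).2⟩)
  refine ⟨D, hD1, hD2, hD3, ?_⟩
  have h1 := win hV (Icc (M - 1 - 4 * m) (M - 1 + 4 * m)) (K := 2 * M - 1) (by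
    intro k hk
    rw [mem_Icc] at hk
    omega)
  have h2 : ((2 * M - 1 : ℕ) : ℝ) + 1 = #V := by
    rw [hcard]
    have : 1 ≤ 2 * M := by omega
    push_cast [Nat.cast_sub this]
    ring
  have h3 : (#(Icc (M - 1 - 4 * m) (M - 1 + 4 * m)) : ℝ) ≤ 9 * m := by
    rw [Nat.card_Icc]
    have : M - 1 + 4 * m + 1 - (M - 1 - 4 * m) ≤ 9 * m := by omega
    exact_mod_cast this
  rw [h2] at h1
  have h4 : ((m * #(kes (V \ D) (#(V \ D) / 2 - 1)) : ℕ) : ℝ) ≤
      #(kesW V (Icc (M - 1 - 4 * m) (M - 1 + 4 * m))) := by exact_mod_cast hD4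
  rw [Nat.cast_mul] at h4
  refine h4.trans (h1.trans ?_)
  gcongr

end Pool.Agent.FC602
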