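import Pool.Agent.FC602.LevK

/-! From recorded vertices to simple arrangements; the explicit robust lower bound. -/

set_option autoImplicit false

namespace Pool.Agent.FC602

open Finset Pool.Agent.TH124.KE Filter Topology
open KLev.Levels (height complexity)
open Pool.Agent.W863.AllK (HasEv)

open Classical in
/-- an arrangement with recorded vertices can be perturbed to a simple one -/
theorem simple_of_ev {n E k : ℕ} (h : HasEv n E k) :
    ∃ Q : Finset (ℝ × ℝ), GP Q ∧ #Q = n ∧ E ≤ #(kes Q k) := by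
  obtain ⟨A, R, _, _, Pp, S, hinj, hA, hR⟩ := h
  obtain ⟨e⟩ : Nonempty (Fin n ≃ A) := ⟨(Fintype.equivFinOfCardEq hA).symm⟩
  set P0 : Fin n → ℝ × ℝ := fun i => (S.s (e i), S.t (e i)) with hP0
  have hc : ∀ l : Fin n, Continuous (fun P : Fin n → ℝ × ℝ => P l) := fun l => continuous_apply l
  set ai : R → Fin n := fun r => e.symm (S.a r) with hai
  set bi : R → Fin n := fun r => e.symm (S.b r) with hbi
  have hP0a : ∀ r, P0 (ai r) = (S.s (S.a r), S.t (S.a r)) := fun r => by simp [hP0, hai]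
  have hP0b : ∀ r, P0 (bi r) = (S.s (S.b r), S.t (S.b r)) := fun r => by simp [hP0, hbi]
  have hlt0 : ∀ r, (P0 (bi r)).1 < (P0 (ai r)).1 := by
    intro r
    rw [hP0a, hP0b]
    exact S.hs r
  have hsl0 : ∀ r, sl (P0 (bi r)) (P0 (ai r)) = - S.X r := by
    intro r
    have h1 := hlt0 r
    have h2 := S.tie r
    unfold sl
    rw [div_eq_iff (by linarith)]
    rw [hP0a, hP0b]
    simp only
    linarith
  have h1 : ∀ᶠ P in 𝓝 P0, ∀ r, (P (bi r)).1 < (P (ai r)).1 := by
    rw [eventually_all]; intro r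
    exact ((hc (bi r)).fst.tendsto P0).eventually_lt ((hc (ai r)).fst.tendsto P0) (hlt0 r)
  have hval : ∀ r (l : Fin n), hh (-S.X r) (P0 l) = S.s (e l) * S.X r + S.t (e l) := by
    intro r l
    unfold hh
    simp only [hP0]
    ring
  have h2 : ∀ᶠ P in 𝓝 P0, ∀ r, ∀ l, l ≠ ai r → l ≠ bi r →
      (hh (sl (P (bi r)) (P (ai r))) (P l) < hh (sl (P (bi r)) (P (ai r))) (P (bi r)) ↔
        S.s (e l) * S.X r + S.t (e l) < S.s (S.a r) * S.X r + S.t (S.a r)) := by
    rw [eventually_all]; intro r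
    rw [eventually_all]; intro l
    by_cases hla : l = ai r
    · exact Eventually.of_forall (fun _ h => absurd hla h)
    by_cases hlb : l = bi r
    · exact Eventually.of_forall (fun _ _ h => absurd hlb h)
    have hS : ContinuousAt (fun P : Fin n → ℝ × ℝ => sl (P (bi r)) (P (ai r))) P0 := by
      unfold sl
      apply ContinuousAt.div
      · exact ((hc (ai r)).snd.sub (hc (bi r)).snd).continuousAt
      · exact ((hc (ai r)).fst.sub (hc (bi r)).fst).continuousAt
      · have := hlt0 r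
        linarith
    have hF : ∀ l : Fin n, ContinuousAt
        (fun P : Fin n → ℝ × ℝ => hh (sl (P (bi r)) (P (ai r))) (P l)) P0 := by
      intro l
      unfold hh
      exact (hc l).snd.continuousAt.sub (hS.mul (hc l).fst.continuousAt)
    have e1 : hh (sl (P0 (bi r)) (P0 (ai r))) (P0 l) = S.s (e l) * S.X r + S.t (e l) := by
      rw [hsl0, hval]
    have e2 : hh (sl (P0 (bi r)) (P0 (ai r))) (P0 (bi r)) =
        S.s (S.a r) * S.X r + S.t (S.a r) := by
      rw [hsl0, hval, S.tie r]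
      simp [hbi]
    have hne : S.s (e l) * S.X r + S.t (e l) ≠ S.s (S.a r) * S.X r + S.t (S.a r) := by
      apply S.hne r (e l)
      · intro h; apply hla; rw [hai]; simp [← h]
      · intro h; apply hlb; rw [hbi]; simp [← h]
    rcases lt_or_gt_of_ne hne with hlt | hgt
    · have h3 := (hF l).eventually_lt (hF (bi r)) (by rw [e1, e2]; exact hlt)
      filter_upwards [h3] with P hP _ _
      exact ⟨fun _ => hlt, fun _ => hP⟩
    · have h3 := (hF (bi r)).eventually_lt (hF l) (by rw [e1, e2]; exact hgt)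
      filter_upwards [h3] with P hP _ _
      exact ⟨fun h => absurd h (not_lt.mpr hP.le), fun h => absurd h (not_lt.mpr hgt.le)⟩
  obtain ⟨P, ⟨hP1, hP2⟩, hP⟩ := Pool.Agent.Y344.KD.exists_near P0 (h1.and h2)
  have hPinj : Function.Injective P := fun i j h => hP.1 i j (by rw [h])
  refine ⟨univ.image P, Pool.Agent.Y344.KD.ke_gp hP, ?_, ?_⟩
  · rw [card_image_of_injective _ hPinj, card_univ, Fintype.card_fin]
  · rw [← hR, ← card_univ (α := R)]
    refine card_le_card_of_injOn (fun r => (P (bi r), P (ai r))) ?_ ?_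
    · intro r _
      rw [mem_coe, mem_kes]
      refine ⟨mem_image_of_mem _ (mem_univ _), mem_image_of_mem _ (mem_univ _), hP1 r, ?_⟩
      simp only
      unfold bel
      rw [filter_image, card_image_of_injective _ hPinj]
      have h3 := S.hcard r
      rw [← card_filter] at h3
      rw [← h3]
      refine card_bij (fun l _ => e l) ?_ ?_ ?_
      · intro l hl
        rw [mem_filter] at hl ⊢
        refine ⟨mem_univ _, ?_⟩
        by_cases hla : l = ai r
        · exfalso
          have := hl.2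
          rw [hla, hh_sl (ne_of_lt (hP1 r))] at this
          exact lt_irrefl _ this
        by_cases hlb : l = bi r
        · exfalso
          have := hl.2
          rw [hlb] at this
          exact lt_irrefl _ this
        exact (hP2 r l hla hlb).mp hl.2
      · intro l _ l' _ h
        exact e.injective h
      · intro c hc'
        rw [mem_filter] at hc'
        refine ⟨e.symm c, ?_, by simp⟩
        rw [mem_filter]
        refine ⟨mem_univ _, ?_⟩
        have hca : c ≠ S.a r := by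
          rintro rfl; exact lt_irrefl _ hc'.2
        have hcb : c ≠ S.b r := by
          rintro rfl
          have := hc'.2
          rw [S.tie r] at this
          exact lt_irrefl _ this
        refine (hP2 r (e.symm c) ?_ ?_).mpr ?_
        · intro h; apply hca; exact e.symm.injective h
        · intro h; apply hcb; exact e.symm.injective h
        · simpa using hc'.2
    · intro r _ r' _ h
      simp only [Prod.mk.injEq] at h
      have hb : S.b r = S.b r' := e.symm.injective (hPinj h.1)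
      have ha : S.a r = S.a r' := e.symm.injective (hPinj h.2)
      apply S.hX
      have t1 := S.tie r
      have t2 := S.tie r'
      have s1 := S.hs r
      rw [← ha, ← hb] at t2
      have h3 : (S.s (S.a r) - S.s (S.b r)) * (S.X r - S.X r') = 0 := by linarith
      rcases mul_eq_zero.mp h3 with h4 | h4
      · linarith
      · linarith

/-- the start's lower bound for every level, with recorded vertices -/
theorem hasEv_main : ∃ k₀ : ℕ, ∀ n k : ℕ, k₀ ≤ k → k + k₀ ≤ n → ∃ E : ℕ, HasEv n E k ∧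
    (n : ℝ) * ((min k (n - k) : ℕ) : ℝ) ^
      Real.exp (-3 * √(Real.log (Real.log ((min k (n - k) : ℕ) : ℝ)))) ≤ (E : ℝ) := by
  obtain ⟨a, ha⟩ := (NearPoly.finalP 4).exists_forall_of_atTop
  refine ⟨a + 3, fun n k h1 h2 => ?_⟩
  obtain ⟨x, hx⟩ : ∃ x, x = min k (n - k) := ⟨_, rfl⟩
  rw [← hx]
  obtain ⟨N, E, P, hH, hN, hE⟩ := ha (x - 1) (by omega)
  have hx0 : (0:ℝ) < x := by
    have : 0 < x := by omega
    exact_mod_cast this
  have hE' := hE x (by exact_mod_cast (by omega : x - 1 ≤ x))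
    (by exact_mod_cast (by omega : x ≤ 8 * (x - 1)))
  have key : ∃ g, g ≤ 2 * x ∧ 0 < g ∧ g ≤ n ∧ HasEv n (n / g * E) k := by
    by_cases hk : 2 * k + 1 ≤ n
    · exact ⟨N + k + 1, by omega, by omega, by omega,
        (Pool.Agent.W863.AllK.many' hH (by omega : N ≤ k + 1) (by omega))⟩
    · refine ⟨N + (n - 2 - k) + 1, by omega, by omega, by omega, ?_⟩
      exact (Pool.Agent.W863.AllK.flip (Pool.Agent.W863.AllK.many' (n := n) hH
        (by omega : N ≤ (n - 2 - k) + 1) (by omega)) (by omega : n - 2 - k + k + 2 = n))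
  obtain ⟨g, g1, g0, g2, g3⟩ := key
  refine ⟨n / g * E, g3, ?_⟩
  have g4 : n ≤ 4 * x * (n / g) := by
    have h5 : n < (n / g + 1) * g := Nat.lt_mul_of_div_lt (Nat.lt_succ_self _) g0
    have h6 : 1 ≤ n / g := Nat.div_pos g2 g0
    have h7 : (n / g + 1) * g ≤ (2 * (n / g)) * (2 * x) := Nat.mul_le_mul (by omega) g1
    nlinarith
  set δ : ℝ := Real.exp (-3 * √(Real.log (Real.log (x : ℝ)))) with hδ
  rw [Real.rpow_add hx0, Real.rpow_one] at hE'
  have g5 : (n:ℝ) ≤ 4 * x * ((n / g : ℕ) : ℝ) := by exact_mod_cast g4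
  have hp : (0:ℝ) ≤ (x:ℝ) ^ δ := Real.rpow_nonneg hx0.le _
  have hd : (0:ℝ) ≤ ((n / g : ℕ) : ℝ) := Nat.cast_nonneg _
  calc (n:ℝ) * (x:ℝ) ^ δ ≤ (4 * x * ((n / g : ℕ) : ℝ)) * (x:ℝ) ^ δ :=
        mul_le_mul_of_nonneg_right g5 hp
    _ = ((n / g : ℕ) : ℝ) * (4 * (x * (x:ℝ) ^ δ)) := by ring
    _ ≤ ((n / g : ℕ) : ℝ) * E := mul_le_mul_of_nonneg_left hE' hd
    _ = _ := by push_cast; ring

open scoped Classical in
/-- **explicit robust lower bound for windows of levels** -/
theorem robust_levels : ∃ k₀ : ℕ, ∀ N k t : ℕ, k₀ ≤ k → k + k₀ ≤ N →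
    ∃ Γ : Finset (ℝ × ℝ), GP Γ ∧ #Γ = (6 * t + 3) * N ∧ ∀ U : Finset (ℝ × ℝ), NoThree U →
      #(Γ \ U) + #(U \ Γ) ≤ t → ∀ j : ℕ, (k + 1) * (6 * t + 3) ≤ j + 1 + t →
        j + 1 ≤ (k + 1) * (6 * t + 3) + t →
        (#Γ : ℝ) / 2 * ((min k (N - k) : ℕ) : ℝ) ^
          Real.exp (-3 * √(Real.log (Real.log ((min k (N - k) : ℕ) : ℝ)))) ≤
            (complexity U j : ℝ) := by
  obtain ⟨k₀, h0⟩ := hasEv_main
  refine ⟨k₀, fun N k t h1 h2 => ?_⟩
  obtain ⟨E, hE1, hE2⟩ := h0 N k h1 h2
  obtain ⟨Q, hQ1, hQ2, hQ3⟩ := simple_of_ev hE1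
  obtain ⟨Γ, g1, g2, g3⟩ := robustK hQ1 k (6 * t + 3)
  refine ⟨Γ, g1, by rw [g2, hQ2]; ring, ?_⟩
  intro U hU hUt j hj1 hj2
  have h3 := g3 U hU j t hj1 hj2
  have h4 : E * (3 * t + 2) ≤ complexity U j := by
    calc E * (3 * t + 2) ≤ #(kes Q k) *
          (6 * t + 3 - (t + 2 * (#(Γ \ U) + #(U \ Γ)) + 1)) := Nat.mul_le_mul hQ3 (by omega)
      _ ≤ #(kes U j) := h3
      _ ≤ _ := kes_le_complexity hU j
  have h5 : (E : ℝ) * (3 * t + 2) ≤ complexity U j := by exact_mod_cast h4
  refine le_trans ?_ h5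
  have h6 : (#Γ : ℝ) = (6 * t + 3) * N := by
    rw [g2, hQ2]; push_cast; ring
  rw [h6]
  have ht : (0 : ℝ) ≤ t := Nat.cast_nonneg t
  set w : ℝ := ((min k (N - k) : ℕ) : ℝ) ^
          Real.exp (-3 * √(Real.log (Real.log ((min k (N - k) : ℕ) : ℝ)))) with hw
  have hw0 : 0 ≤ w := by positivity
  have hN : (0 : ℝ) ≤ N := Nat.cast_nonneg N
  calc (6 * (t : ℝ) + 3) * N / 2 * w = (6 * (t : ℝ) + 3) / 2 * (N * w) := by ring
    _ ≤ (3 * t + 2) * (N * w) := by
        gcongr
        linarith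
    _ ≤ (3 * t + 2) * E := by gcongr
    _ = _ := by ring

end Pool.Agent.FC602
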