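import Pool.Agent.FC602.Rob
import Pool.Agent.KLev.Halving

/-! Transfer to point sets in general position. -/

set_option autoImplicit false

namespace Pool.Agent.FC602

open Finset Pool.Agent.TH124.KE Pool.Agent.Y429.HalvFew
open KLev.Halving (GeneralPosition IsBisector f)

lemma bis_iff (P : Finset (ℝ × ℝ)) (L : Set (ℝ × ℝ)) :
    IsBisector P L ↔ Pool.Agent.W296.HL.IsBisector P L := Iff.rfl

lemma gen_iff (P : Finset (ℝ × ℝ)) :
    GeneralPosition P ↔ Pool.Agent.W296.HL.GeneralPosition P := Iff.rfl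

lemma gp_general {P : Finset (ℝ × ℝ)} (hP : GP P) : GeneralPosition P := by
  rintro a b c hab p hp q hq r hr hpq hpr hqr ⟨h1, h2, h3⟩
  have h1' : a * p.1 + b * p.2 = c := h1
  have h2' : a * q.1 + b * q.2 = c := h2
  have h3' : a * r.1 + b * r.2 = c := h3
  have hx : p.1 ≠ q.1 := hP.ne1 hp hq hpq
  have hy : p.1 ≠ r.1 := hP.ne1 hp hr hpr
  by_cases hb : b = 0
  · have ha : a ≠ 0 := by
      rcases hab with h | h
      · exact h
      · exact absurd hb h
    rw [hb] at h1' h2'
    apply hx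
    have : a * (p.1 - q.1) = 0 := by linarith
    have := (mul_eq_zero.mp this).resolve_left ha
    linarith
  · apply hP.col p hp q hq r hr hpq hpr hqr
    have e1 : sl p q = - a / b := by
      unfold sl
      rw [div_eq_div_iff (sub_ne_zero.mpr (Ne.symm hx)) hb]
      linarith
    have e2 : sl p r = - a / b := by
      unfold sl
      rw [div_eq_div_iff (sub_ne_zero.mpr (Ne.symm hy)) hb]
      linarith
    rw [e1, e2]

/-- unshearing -/
def unshr (ε : ℝ) (x : ℝ × ℝ) : ℝ × ℝ := (x.1 - ε * x.2, x.2)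

lemma shr_unshr (ε : ℝ) (x : ℝ × ℝ) : shr ε (unshr ε x) = x := by
  unfold shr unshr; ext <;> simp

lemma unshr_shr (ε : ℝ) (x : ℝ × ℝ) : unshr ε (shr ε x) = x := by
  unfold shr unshr; ext <;> simp

lemma unshr_inj (ε : ℝ) : Function.Injective (unshr ε) := by
  intro x y h
  rw [← shr_unshr ε x, h, shr_unshr]

lemma general_unshr {P : Finset (ℝ × ℝ)} {ε : ℝ} (h : GeneralPosition (P.image (shr ε))) :
    GeneralPosition P := by
  rintro a b c hab p hp q hq r hr hpq hpr hqr ⟨h1, h2, h3⟩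
  have key : ∀ x : ℝ × ℝ, x ∈ KLev.Halving.Line a b c → shr ε x ∈
      KLev.Halving.Line a (b - a * ε) c := by
    intro x hx
    have hx' : a * x.1 + b * x.2 = c := hx
    change a * (x.1 + ε * x.2) + (b - a * ε) * x.2 = c
    rw [← hx']; ring
  refine h a (b - a * ε) c ?_ (shr ε p) (mem_image_of_mem _ hp) (shr ε q) (mem_image_of_mem _ hq)
    (shr ε r) (mem_image_of_mem _ hr) (fun h => hpq (shr_inj ε h)) (fun h => hpr (shr_inj ε h))
    (fun h => hqr (shr_inj ε h)) ⟨key p h1, key q h2, key r h3⟩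
  by_cases ha : a = 0
  · right
    rw [ha]
    rcases hab with h | h
    · exact absurd ha h
    · simpa using h
  · exact Or.inl ha

/-- numerical part of the deletion bound -/
lemma num_del {n m t : ℝ} (hn : 0 < n) (ht : 0 < t) (hm : t ≤ 16 * m) {x : ℝ}
    (hx : m * x ≤ 18 * n * (n ^ (1 / 3 : ℝ) * (9 * m) ^ (2 / 3 : ℝ))) :
    x ≤ 200 * n * (n / t) ^ (1 / 3 : ℝ) := by
  have hm0 : 0 < m := by linarith
  set y : ℝ := (n / t) ^ (1 / 3 : ℝ) with hy
  have hy0 : 0 < y := by positivity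
  have hy3 : y ^ 3 = n / t := by
    rw [hy, ← Real.rpow_natCast, ← Real.rpow_mul (by positivity)]
    norm_num
  set z : ℝ := n ^ (1 / 3 : ℝ) * (9 * m) ^ (2 / 3 : ℝ) with hz
  have hz0 : 0 < z := by positivity
  have hz3 : z ^ 3 = n * (9 * m) ^ 2 := by
    rw [hz, mul_pow, ← Real.rpow_natCast, ← Real.rpow_mul (by positivity),
      ← Real.rpow_natCast ((9 * m) ^ (2 / 3 : ℝ)), ← Real.rpow_mul (by positivity)]
    norm_num
  -- `18 z ≤ 200 m y`
  have h1 : 18 * z ≤ 200 * m * y := by
    have h2 : (18 * z) ^ 3 ≤ (200 * m * y) ^ 3 := by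
      rw [mul_pow, hz3, mul_pow (200 * m) y, hy3]
      have e : (200 * m) ^ 3 * (n / t) = 8000000 * m ^ 3 * n / t := by ring
      rw [e, le_div_iff₀ ht]
      have h3 : 18 ^ 3 * (n * (9 * m) ^ 2) * t ≤ 18 ^ 3 * (n * (9 * m) ^ 2) * (16 * m) := by
        gcongr
      refine h3.trans ?_
      have h4 : 18 ^ 3 * (n * (9 * m) ^ 2) * (16 * m) = 7558272 * (m ^ 3 * n) := by ring
      rw [h4]
      have : 0 ≤ m ^ 3 * n := by positivity
      nlinarith
    exact le_of_pow_le_pow_left₀ (by norm_num) (by positivity) h2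
  have h2 : m * x ≤ m * (200 * n * y) := by
    calc m * x ≤ 18 * n * z := hx
      _ = n * (18 * z) := by ring
      _ ≤ n * (200 * m * y) := by gcongr
      _ = _ := by ring
  exact le_of_mul_le_mul_left h2 hm0

open scoped Classical in
/-- **deletion** -/
theorem deletion {P : Finset (ℝ × ℝ)} (hP : GeneralPosition P) (hE : Even #P) {t : ℕ}
    (ht1 : 1 ≤ t) (ht : t ≤ #P) :
    ∃ D ⊆ P, #D ≤ t ∧ Even #D ∧
      ({L | IsBisector (P \ D) L}.ncard : ℝ) ≤ 200 * #P * ((#P : ℝ) / t) ^ (1 / 3 : ℝ) := by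
  obtain ⟨ε, hε⟩ := exists_shear P
  have hG := gp_shear (Pool.Agent.W296.HL.gen_of_gp hP) hε
  set V := P.image (shr ε) with hV
  have hVc : #V = #P := card_image_of_injective _ (shr_inj ε)
  have hn1 : (1 : ℝ) ≤ #P := by exact_mod_cast ht1.trans ht
  have ht0 : (0 : ℝ) < t := by exact_mod_cast ht1
  have htP : (t : ℝ) ≤ #P := by exact_mod_cast ht
  by_cases hbig : 22 ≤ #P
  · set m := t / 16 + 1 with hm
    obtain ⟨D, hD1, hD2, hD3, hD4⟩ := del_m hG (by rw [hVc]; exact hE) (m := m) (by omega)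
      (by omega)
    refine ⟨D.image (unshr ε), ?_, ?_, ?_, ?_⟩
    · intro x hx
      rw [mem_image] at hx
      obtain ⟨y, hy, rfl⟩ := hx
      obtain ⟨z, hz, rfl⟩ := mem_image.mp (hD1 hy)
      rw [unshr_shr]
      exact hz
    · rw [card_image_of_injective _ (unshr_inj ε)]
      omega
    · rw [card_image_of_injective _ (unshr_inj ε)]
      exact hD3
    · have e1 : (P \ D.image (unshr ε)).image (shr ε) = V \ D := by
        rw [image_sdiff _ _ (shr_inj ε), image_image]
        have : (shr ε ∘ unshr ε) = id := by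
          funext x; exact shr_unshr ε x
        rw [this, image_id]
      have h1 := bis_le (P := P \ D.image (unshr ε)) (ε := ε) (fun x hx y hy =>
        hε x (mem_sdiff.mp hx).1 y (mem_sdiff.mp hy).1)
      rw [e1] at h1
      have e2 : #(P \ D.image (unshr ε)) = #(V \ D) := by
        rw [← e1, card_image_of_injective _ (shr_inj ε)]
      rw [e2] at h1
      have h2 : (({L | IsBisector (P \ D.image (unshr ε)) L}.ncard : ℕ) : ℝ) ≤
          (#(kes (V \ D) (#(V \ D) / 2 - 1)) : ℕ) := by exact_mod_cast h1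
      refine h2.trans ?_
      rw [hVc] at hD4
      refine num_del (by linarith) ht0 ?_ hD4
      have : t ≤ 16 * m := by omega
      exact_mod_cast this
  · refine ⟨∅, empty_subset _, by simp, by simp, ?_⟩
    rw [sdiff_empty]
    have h1 := bis_le (P := P) hε
    have h2 : #(kes V (#P / 2 - 1)) ≤ #P * #P := by
      unfold kes
      refine (card_filter_le _ _).trans ?_
      rw [card_product, hVc]
    have h3 : (({L | IsBisector P L}.ncard : ℕ) : ℝ) ≤ ((#P * #P : ℕ) : ℝ) := by
      exact_mod_cast h1.trans h2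
    refine h3.trans ?_
    push_cast
    have h4 : (1 : ℝ) ≤ ((#P : ℝ) / t) ^ (1 / 3 : ℝ) := by
      apply Real.one_le_rpow _ (by norm_num)
      rw [one_le_div ht0]
      exact htP
    have h5 : (#P : ℝ) ≤ 22 := by
      have : #P ≤ 22 := by omega
      exact_mod_cast this
    have h6 : (0 : ℝ) < #P := by linarith
    nlinarith

open scoped Classical in
/-- **insertion** -/
theorem insertion {P : Finset (ℝ × ℝ)} (hP : GeneralPosition P) (hne : 1 ≤ #P) {t : ℕ}
    (ht : t ≤ #P) :
    ∃ P' : Finset (ℝ × ℝ), P ⊆ P' ∧ GeneralPosition P' ∧ #P' = #P + t ∧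
      ({L | IsBisector P' L}.ncard : ℝ) ≤
        18 * #P * ((#P : ℝ) / (t + 1)) ^ (1 / 3 : ℝ) + t := by
  obtain ⟨ε, hε⟩ := exists_shear P
  have hG := gp_shear (Pool.Agent.W296.HL.gen_of_gp hP) hε
  set V := P.image (shr ε) with hV
  have hVc : #V = #P := card_image_of_injective _ (shr_inj ε)
  obtain ⟨V', h1, h2, h3, h4⟩ := ins hG (t := t) (by omega) (by omega)
  have e1 : (V'.image (unshr ε)).image (shr ε) = V' := by
    rw [image_image]
    have : (shr ε ∘ unshr ε) = id := by
      funext x; exact shr_unshr ε x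
    rw [this, image_id]
  have hc : #(V'.image (unshr ε)) = #V' := card_image_of_injective _ (unshr_inj ε)
  refine ⟨V'.image (unshr ε), ?_, ?_, by omega, ?_⟩
  · intro x hx
    rw [mem_image]
    exact ⟨shr ε x, h1 (mem_image_of_mem _ hx), unshr_shr ε x⟩
  · apply general_unshr (ε := ε)
    rw [e1]
    exact gp_general h2
  · have h5 := bis_le (P := V'.image (unshr ε)) (ε := ε) (by
      intro x hx y hy h
      apply shr_inj ε
      refine h2.inj _ ?_ _ ?_ h
      · rw [← e1]; exact mem_image_of_mem _ hx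
      · rw [← e1]; exact mem_image_of_mem _ hy)
    rw [e1, hc] at h5
    have h6 : (({L | IsBisector (V'.image (unshr ε)) L}.ncard : ℕ) : ℝ) ≤
        (#(kes V' (#V' / 2 - 1)) : ℕ) := by exact_mod_cast h5
    refine h6.trans ?_
    rw [hVc] at h4
    have ht1 : (0 : ℝ) < (t : ℝ) + 1 := by positivity
    have hn : (0 : ℝ) < #P := by exact_mod_cast hne
    have h7 : (#P : ℝ) ^ (1 / 3 : ℝ) * ((t : ℝ) + 1) ^ (2 / 3 : ℝ) =
        ((#P : ℝ) / (t + 1)) ^ (1 / 3 : ℝ) * (t + 1) := by
      rw [Real.div_rpow hn.le ht1.le]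
      have : ((t : ℝ) + 1) ^ (2 / 3 : ℝ) * ((t : ℝ) + 1) ^ (1 / 3 : ℝ) = t + 1 := by
        rw [← Real.rpow_add ht1]
        norm_num
      field_simp
      exact this
    rw [h7] at h4
    have h8 : (#(kes V' (#V' / 2 - 1)) : ℝ) * (t + 1) ≤
        (18 * #P * ((#P : ℝ) / (t + 1)) ^ (1 / 3 : ℝ) + t) * (t + 1) := by
      refine h4.trans (le_of_eq ?_)
      ring
    exact le_of_mul_le_mul_right h8 ht1

/-- the maximum is attained -/
lemma f_attained {n : ℕ} (h : 0 < f n) : ∃ P : Finset (ℝ × ℝ), #P = n ∧ GeneralPosition P ∧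
    {L | IsBisector P L}.ncard = f n := by
  classical
  have hne : {m : ℕ | ∃ P : Finset (ℝ × ℝ), P.card = n ∧ GeneralPosition P ∧
      {L | IsBisector P L}.ncard = m}.Nonempty := by
    by_contra hcon
    rw [Set.not_nonempty_iff_eq_empty] at hcon
    unfold f at h
    rw [hcon] at h
    simp at h
  have hbdd : BddAbove {m : ℕ | ∃ P : Finset (ℝ × ℝ), P.card = n ∧ GeneralPosition P ∧
      {L | IsBisector P L}.ncard = m} := by
    refine ⟨n * n, ?_⟩
    rintro m ⟨P, hP1, hP2, rfl⟩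
    obtain ⟨ε, hε⟩ := exists_shear P
    refine (bis_le hε).trans ?_
    unfold kes
    refine (card_filter_le _ _).trans ?_
    rw [card_product, card_image_of_injective _ (shr_inj ε), hP1]
  exact Nat.sSup_mem hne hbdd

open scoped Classical in
/-- **robust lower bound in terms of `f`** -/
theorem robust_f (q M : ℕ) :
    ∃ P : Finset (ℝ × ℝ), GeneralPosition P ∧ #P = 2 * q * M ∧
      ∀ U : Finset (ℝ × ℝ), GeneralPosition U → Even #U →
        f (2 * q) * (M - (2 * (#(P \ U) + #(U \ P)) + 1)) ≤ {L | IsBisector U L}.ncard := by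
  rcases Nat.eq_zero_or_pos (f (2 * q)) with h0 | h0
  · -- any set in general position
    have hpar : ∀ N : ℕ, ∃ P : Finset (ℝ × ℝ), GP P ∧ #P = N := by
      intro N
      obtain ⟨V', -, h2, h3, -⟩ := add_many (V := ∅)
        ⟨fun p hp => absurd hp (notMem_empty _), fun p hp => absurd hp (notMem_empty _)⟩ N 0
      exact ⟨V', h2, by rw [h3]; simp⟩
    obtain ⟨P, hP1, hP2⟩ := hpar (2 * q * M)
    refine ⟨P, gp_general hP1, hP2, ?_⟩
    intro U _ _
    rw [h0, zero_mul]
    exact Nat.zero_le _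
  · obtain ⟨P0, h1, h2, h3⟩ := f_attained h0
    obtain ⟨ε, hε⟩ := exists_shear P0
    have hG := gp_shear (Pool.Agent.W296.HL.gen_of_gp h2) hε
    have hc : #(P0.image (shr ε)) = 2 * q := by
      rw [card_image_of_injective _ (shr_inj ε), h1]
    obtain ⟨P, k1, k2, k3⟩ := robust hG hc M
    refine ⟨P, gp_general k1, k2, ?_⟩
    intro U hU hE
    refine le_trans ?_ (k3 U (Pool.Agent.W296.HL.gen_of_gp hU) hE)
    apply Nat.mul_le_mul_right
    rw [← h3]
    have h5 := bis_le (P := P0) hε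
    rw [h1] at h5
    have e : 2 * q / 2 - 1 = q - 1 := by omega
    rw [e] at h5
    exact h5

end Pool.Agent.FC602
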