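import Pool.Agent.FC602.Del

/-! Insertion of a few points. -/

set_option autoImplicit false

namespace Pool.Agent.FC602

open Finset Pool.Agent.TH124.KE

/-- a number to the right of all points -/
lemma exists_right (V : Finset (ℝ × ℝ)) : ∃ X : ℝ, ∀ p ∈ V, p.1 < X := by
  classical
  obtain ⟨X, hX⟩ := (V.image (fun p => p.1)).exists_le
  exact ⟨X + 1, fun p hp => by have := hX p.1 (mem_image_of_mem _ hp); linarith⟩

/-- the height over `X` of the line `pq` -/
noncomputable def lh (X : ℝ) (p q : ℝ × ℝ) : ℝ := hh (sl p q) p + sl p q * X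

lemma sl_new {X R : ℝ} {p q : ℝ × ℝ} (hp : p.1 < X) :
    (lh X p q < R ↔ sl p q < sl p (X, R)) ∧ (R < lh X p q ↔ sl p (X, R) < sl p q) := by
  have h : 0 < X - p.1 := by linarith
  have h1 : sl p (X, R) = (R - p.2) / (X - p.1) := rfl
  rw [h1, lt_div_iff₀ h, div_lt_iff₀ h]
  unfold lh hh
  constructor <;> constructor <;> intro h2 <;> nlinarith

lemma gp_insert {V : Finset (ℝ × ℝ)} (hV : GP V) {X R : ℝ} (hX : ∀ p ∈ V, p.1 < X)
    (hR : ∀ p ∈ V, ∀ q ∈ V, p ≠ q → lh X p q ≠ R) : GP (insert (X, R) V) := by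
  have h0 : ∀ p ∈ V, ∀ q ∈ V, p ≠ q → sl p q ≠ sl p (X, R) := by
    intro p hp q hq hpq h
    apply hR p hp q hq hpq
    have h1 := (sl_new (R := R) (q := q) (hX p hp)).1
    have h2 := (sl_new (R := R) (q := q) (hX p hp)).2
    apply le_antisymm
    · by_contra h3
      push Not at h3
      exact absurd (h2.mp h3) (by rw [h]; exact lt_irrefl _)
    · by_contra h3
      push Not at h3
      exact absurd (h1.mp h3) (by rw [h]; exact lt_irrefl _)
  constructor
  · intro p hp q hq h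
    rw [mem_insert] at hp hq
    rcases hp with rfl | hp <;> rcases hq with rfl | hq
    · rfl
    · exact absurd h (ne_of_gt (hX q hq))
    · exact absurd h (ne_of_lt (hX p hp))
    · exact hV.inj p hp q hq h
  · intro p hp q hq r hr hpq hpr hqr h
    rw [mem_insert] at hp hq hr
    rcases hp with rfl | hp
    · rcases hq with rfl | hq
      · exact hpq rfl
      rcases hr with rfl | hr
      · exact hpr rfl
      -- `q`, `r` in `V` and the new point collinear
      have h3 : sl q r = sl q (X, R) := by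
        have hq0 : X - q.1 ≠ 0 := by have := hX q hq; linarith
        have hr0 : X - r.1 ≠ 0 := by have := hX r hr; linarith
        have hqr0 : r.1 - q.1 ≠ 0 := fun h => hqr (hV.inj q hq r hr (by linarith))
        unfold sl at h ⊢
        rw [div_eq_div_iff (by simpa using fun h => hq0 (by linarith))
          (by simpa using fun h => hr0 (by linarith))] at h
        rw [div_eq_div_iff hqr0 hq0]
        simp only at h ⊢
        linarith
      exact h0 q hq r hr hqr h3
    · rcases hq with rfl | hq <;> rcases hr with rfl | hr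
      · exact hqr rfl
      · exact h0 p hp r hr hpr h.symm
      · exact h0 p hp q hq hpq h
      · exact hV.col p hp q hq r hr hpq hpr hqr h

lemma bel_insert {V : Finset (ℝ × ℝ)} {u : ℝ × ℝ} (hu : u ∉ V) (σ : ℝ) (p : ℝ × ℝ) :
    bel (insert u V) σ p = bel V σ p + if hh σ u < hh σ p then 1 else 0 := by
  classical
  unfold bel
  rw [filter_insert]
  split_ifs with h
  · rw [card_insert_of_notMem]
    intro h1
    exact hu (mem_filter.mp h1).1
  · rfl

/-- uniqueness of the element of a given rank -/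
lemma rank_unique {V : Finset (ℝ × ℝ)} (hV : GP V) {p q : ℝ × ℝ} (hp : p ∈ V) (hq : q ∈ V) {k : ℕ}
    (h : (#{r ∈ V | p.1 < r.1} = k ∧ #{r ∈ V | q.1 < r.1} = k) ∨
      (#{r ∈ V | r.1 < p.1} = k ∧ #{r ∈ V | r.1 < q.1} = k)) : p = q := by
  have key : ∀ p ∈ V, ∀ q ∈ V, p.1 < q.1 → #{r ∈ V | q.1 < r.1} < #{r ∈ V | p.1 < r.1} ∧
      #{r ∈ V | r.1 < p.1} < #{r ∈ V | r.1 < q.1} := by
    intro p hp q hq h
    constructor
    · apply card_lt_card
      rw [ssubset_iff_of_subset]
      · exact ⟨q, mem_filter.mpr ⟨hq, h⟩, fun h1 => lt_irrefl _ (mem_filter.mp h1).2⟩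
      · intro r hr
        rw [mem_filter] at hr ⊢
        exact ⟨hr.1, h.trans hr.2⟩
    · apply card_lt_card
      rw [ssubset_iff_of_subset]
      · exact ⟨p, mem_filter.mpr ⟨hp, h⟩, fun h1 => lt_irrefl _ (mem_filter.mp h1).2⟩
      · intro r hr
        rw [mem_filter] at hr ⊢
        exact ⟨hr.1, hr.2.trans h⟩
  rcases lt_trichotomy p.1 q.1 with h1 | h1 | h1
  · have := key p hp q hq h1
    omega
  · exact hV.inj p hp q hq h1
  · have := key q hq p hp h1
    omega

open Classical in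
/-- adding one point, above or below all lines -/
theorem add_one {V : Finset (ℝ × ℝ)} (hV : GP V) (up : Bool) :
    ∃ u : ℝ × ℝ, u ∉ V ∧ GP (insert u V) ∧
      (∀ p ∈ V, ∀ q ∈ V, p.1 < q.1 → bel (insert u V) (sl p q) p =
        bel V (sl p q) p + if up then 0 else 1) ∧
      (∀ p ∈ V, p.1 < u.1) ∧
      ∀ k, #{e ∈ kes (insert u V) k | ¬ (e.1 ∈ V ∧ e.2 ∈ V)} ≤ 1 := by
  obtain ⟨X, hX⟩ := exists_right V
  have hex : ∃ R : ℝ, ∀ p ∈ V, ∀ q ∈ V, if up then lh X p q < R else R < lh X p q := by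
    cases up
    · obtain ⟨R, hR⟩ := ((V ×ˢ V).image (fun e => - lh X e.1 e.2)).exists_le
      refine ⟨- R - 1, fun p hp q hq => ?_⟩
      have := hR (- lh X p q) (mem_image.mpr ⟨(p, q), mem_product.mpr ⟨hp, hq⟩, rfl⟩)
      simp only [Bool.false_eq_true, if_false]
      linarith
    · obtain ⟨R, hR⟩ := ((V ×ˢ V).image (fun e => lh X e.1 e.2)).exists_le
      refine ⟨R + 1, fun p hp q hq => ?_⟩
      have := hR (lh X p q) (mem_image.mpr ⟨(p, q), mem_product.mpr ⟨hp, hq⟩, rfl⟩)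
      simp only [if_true]
      linarith
  obtain ⟨R, hR⟩ := hex
  have hu : (X, R) ∉ V := fun h => lt_irrefl _ (hX _ h)
  have hGP : GP (insert (X, R) V) := by
    refine gp_insert hV hX ?_
    intro p hp q hq _ h
    have := hR p hp q hq
    rw [h] at this
    cases up <;> simp at this
  refine ⟨(X, R), hu, hGP, ?_, fun p hp => hX p hp, ?_⟩
  · intro p hp q hq hpq
    rw [bel_insert hu]
    congr 1
    have h1 := hR p hp q hq
    have h2 : hh (sl p q) (X, R) < hh (sl p q) p ↔ R < lh X p q := by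
      unfold lh hh
      constructor <;> intro h <;> linarith
    cases up
    · simp only [Bool.false_eq_true, if_false] at h1 ⊢
      rw [if_pos (h2.mpr h1)]
    · simp only [if_true] at h1 ⊢
      rw [if_neg (fun h => lt_asymm h1 (h2.mp h))]
  · intro k
    rw [card_le_one]
    have key : ∀ e, e ∈ ({e ∈ kes (insert (X, R) V) k | ¬ (e.1 ∈ V ∧ e.2 ∈ V)} : Finset _) →
        e.2 = (X, R) ∧ e.1 ∈ V ∧
          (if up then #{r ∈ V | e.1.1 < r.1} = k else #{r ∈ V | r.1 < e.1.1} = k) := by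
      rintro ⟨p, q⟩ he
      rw [mem_filter, mem_kes] at he
      obtain ⟨⟨h1, h2, h3, h4⟩, h5⟩ := he
      simp only at h1 h2 h3 h4 h5
      rw [mem_insert] at h1 h2
      have hq : q = (X, R) := by
        rcases h2 with h2 | h2
        · exact h2
        · rcases h1 with h1 | h1
          · rw [h1] at h3
            exact absurd (hX q h2) (not_lt.mpr h3.le)
          · exact absurd ⟨h1, h2⟩ h5
      subst hq
      have hp : p ∈ V := by
        rcases h1 with h1 | h1
        · rw [h1] at h3; exact absurd h3 (lt_irrefl _)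
        · exact h1
      refine ⟨rfl, hp, ?_⟩
      have h6 : hh (sl p (X, R)) (X, R) = hh (sl p (X, R)) p := hh_sl (ne_of_lt h3)
      rw [bel_insert hu, h6, if_neg (lt_irrefl _), add_zero] at h4
      cases up
      · simp only [Bool.false_eq_true, if_false]
        rw [← h4]
        unfold bel
        congr 1
        ext r
        rw [mem_filter, mem_filter]
        refine and_congr_right fun hr => ?_
        rcases lt_trichotomy r.1 p.1 with h7 | h7 | h7
        · rw [hh_lt_left h7]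
          have h8 := hR p hp r hr
          simp only [Bool.false_eq_true, if_false] at h8
          exact ⟨fun _ => (sl_new (hX p hp)).2.mp h8, fun _ => h7⟩
        · rw [hV.inj r hr p hp h7]
          exact ⟨fun h => absurd h (lt_irrefl _), fun h => absurd h (lt_irrefl _)⟩
        · rw [hh_lt_right h7]
          have h8 := hR p hp r hr
          simp only [Bool.false_eq_true, if_false] at h8
          have h9 := (sl_new (hX p hp)).2.mp h8
          exact ⟨fun h => absurd h (lt_asymm h7), fun h => absurd h (lt_asymm h9)⟩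
      · simp only [if_true]
        rw [← h4]
        unfold bel
        congr 1
        ext r
        rw [mem_filter, mem_filter]
        refine and_congr_right fun hr => ?_
        rcases lt_trichotomy r.1 p.1 with h7 | h7 | h7
        · rw [hh_lt_left h7]
          have h8 := hR p hp r hr
          simp only [if_true] at h8
          have h9 := (sl_new (hX p hp)).1.mp h8
          exact ⟨fun h => absurd h (lt_asymm h7), fun h => absurd h (lt_asymm h9)⟩
        · rw [hV.inj r hr p hp h7]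
          exact ⟨fun h => absurd h (lt_irrefl _), fun h => absurd h (lt_irrefl _)⟩
        · rw [hh_lt_right h7]
          have h8 := hR p hp r hr
          simp only [if_true] at h8
          exact ⟨fun _ => (sl_new (hX p hp)).1.mp h8, fun _ => h7⟩
    intro e he e' he'
    obtain ⟨h1, h2, h3⟩ := key e he
    obtain ⟨h1', h2', h3'⟩ := key e' he'
    refine Prod.ext ?_ (h1.trans h1'.symm)
    cases up
    · simp only [Bool.false_eq_true, if_false] at h3 h3'
      exact rank_unique hV h2 h2' (Or.inr ⟨h3, h3'⟩)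
    · simp only [if_true] at h3 h3'
      exact rank_unique hV h2 h2' (Or.inl ⟨h3, h3'⟩)

open Classical in
/-- adding `c` points above and `d` points below -/
theorem add_many {V : Finset (ℝ × ℝ)} (hV : GP V) (c d : ℕ) :
    ∃ V' : Finset (ℝ × ℝ), V ⊆ V' ∧ GP V' ∧ #V' = #V + c + d ∧
      (∀ p ∈ V, ∀ q ∈ V, p.1 < q.1 → bel V' (sl p q) p = bel V (sl p q) p + d) ∧
      ∀ k, #{e ∈ kes V' k | ¬ (e.1 ∈ V ∧ e.2 ∈ V)} ≤ c + d := by
  have step : ∀ (up : Bool) (V' : Finset (ℝ × ℝ)) (d s : ℕ), V ⊆ V' → GP V' →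
      (∀ p ∈ V, ∀ q ∈ V, p.1 < q.1 → bel V' (sl p q) p = bel V (sl p q) p + d) →
      (∀ k, #{e ∈ kes V' k | ¬ (e.1 ∈ V ∧ e.2 ∈ V)} ≤ s) →
      ∃ V'' : Finset (ℝ × ℝ), V ⊆ V'' ∧ GP V'' ∧ #V'' = #V' + 1 ∧
      (∀ p ∈ V, ∀ q ∈ V, p.1 < q.1 → bel V'' (sl p q) p =
        bel V (sl p q) p + (d + if up then 0 else 1)) ∧
      (∀ k, #{e ∈ kes V'' k | ¬ (e.1 ∈ V ∧ e.2 ∈ V)} ≤ s + 1) := by
    intro up V' d s h1 h2 h3 h4
    obtain ⟨u, hu, hGP, hb, hX, hk⟩ := add_one h2 up
    refine ⟨insert u V', h1.trans (subset_insert _ _), hGP, card_insert_of_notMem hu, ?_, ?_⟩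
    · intro p hp q hq hpq
      rw [hb p (h1 hp) q (h1 hq) hpq, h3 p hp q hq hpq]
      ring
    · intro k
      have hsub : ({e ∈ kes (insert u V') k | ¬ (e.1 ∈ V ∧ e.2 ∈ V)} : Finset _) ⊆
          {e ∈ kes V' (k - if up then 0 else 1) | ¬ (e.1 ∈ V ∧ e.2 ∈ V)} ∪
          {e ∈ kes (insert u V') k | ¬ (e.1 ∈ V' ∧ e.2 ∈ V')} := by
        rintro ⟨p, q⟩ he
        rw [mem_filter] at he
        rw [mem_union, mem_filter, mem_filter]
        by_cases h5 : p ∈ V' ∧ q ∈ V'
        · left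
          refine ⟨?_, he.2⟩
          have h6 := mem_kes.mp he.1
          rw [mem_kes]
          obtain ⟨-, -, h7, h8⟩ := h6
          simp only at h7 h8
          rw [hb p h5.1 q h5.2 h7] at h8
          exact ⟨h5.1, h5.2, h7, by simp only; omega⟩
        · right
          exact ⟨he.1, h5⟩
      exact (card_le_card hsub).trans ((card_union_le _ _).trans (Nat.add_le_add (h4 _) (hk k)))
  have up : ∀ c : ℕ, ∃ V' : Finset (ℝ × ℝ), V ⊆ V' ∧ GP V' ∧ #V' = #V + c ∧
      (∀ p ∈ V, ∀ q ∈ V, p.1 < q.1 → bel V' (sl p q) p = bel V (sl p q) p + 0) ∧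
      ∀ k, #{e ∈ kes V' k | ¬ (e.1 ∈ V ∧ e.2 ∈ V)} ≤ c := by
    intro c
    induction c with
    | zero =>
      refine ⟨V, Subset.refl _, hV, rfl, fun _ _ _ _ _ => rfl, ?_⟩
      intro k
      rw [Nat.le_zero, card_eq_zero, filter_eq_empty_iff]
      intro e he h
      rw [mem_kes] at he
      exact h ⟨he.1, he.2.1⟩
    | succ c ih =>
      obtain ⟨V', h1, h2, h3, h4, h5⟩ := ih
      obtain ⟨V'', k1, k2, k3, k4, k5⟩ := step true V' 0 c h1 h2 h4 h5
      refine ⟨V'', k1, k2, by omega, ?_, k5⟩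
      simpa using k4
  induction d with
  | zero => exact up c
  | succ d ih =>
    obtain ⟨V', h1, h2, h3, h4, h5⟩ := ih
    obtain ⟨V'', k1, k2, k3, k4, k5⟩ := step false V' d (c + d) h1 h2 h4 h5
    refine ⟨V'', k1, k2, by omega, ?_, k5⟩
    simpa using k4

open Classical in
/-- **insertion** of exactly `t` points -/
theorem ins {V : Finset (ℝ × ℝ)} (hV : GP V) {t : ℕ} (ht : t ≤ #V) (hN : 1 ≤ #V) :
    ∃ V' : Finset (ℝ × ℝ), V ⊆ V' ∧ GP V' ∧ #V' = #V + t ∧
      (#(kes V' (#V' / 2 - 1)) : ℝ) * (t + 1) ≤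
        18 * #V * ((#V : ℝ) ^ (1 / 3 : ℝ) * ((t : ℝ) + 1) ^ (2 / 3 : ℝ)) + t * (t + 1) := by
  have h : ∀ d : Fin (t + 1), ∃ V' : Finset (ℝ × ℝ), V ⊆ V' ∧ GP V' ∧ #V' = #V + t ∧
      (∀ p ∈ V, ∀ q ∈ V, p.1 < q.1 → bel V' (sl p q) p = bel V (sl p q) p + d) ∧
      ∀ k, #{e ∈ kes V' k | ¬ (e.1 ∈ V ∧ e.2 ∈ V)} ≤ t := by
    intro d
    obtain ⟨V', h1, h2, h3, h4, h5⟩ := add_many hV (t - d) d
    have := d.2
    exact ⟨V', h1, h2, by omega, h4, fun k => (h5 k).trans (by omega)⟩
  choose U hU1 hU2 hU3 hU4 hU5 using h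
  set k := (#V + t) / 2 - 1 with hk
  have hkU : ∀ d, #(U d) / 2 - 1 = k := fun d => by rw [hU3]
  set W := Icc (k - t) k with hW
  -- old pairs
  have h1 : ∑ d, #{e ∈ kes (U d) k | e.1 ∈ V ∧ e.2 ∈ V} ≤ #(kesW V W) := by
    rw [← card_sigma]
    apply card_le_card_of_injOn (fun z => z.2)
    · rintro ⟨d, e⟩ hz
      rw [mem_coe, mem_sigma, mem_filter, mem_kes] at hz
      obtain ⟨-, ⟨-, -, h3, h4⟩, h5⟩ := hz
      simp only at h3 h4 h5
      rw [hU4 d _ h5.1 _ h5.2 h3] at h4
      rw [mem_coe, mem_kesW, hW, mem_Icc]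
      have := d.2
      exact ⟨h5.1, h5.2, h3, by simp only; omega⟩
    · rintro ⟨d, e⟩ hz ⟨d', e'⟩ hz' h
      simp only at h
      subst h
      rw [mem_coe, mem_sigma, mem_filter, mem_kes] at hz hz'
      obtain ⟨-, ⟨-, -, h3, h4⟩, h5⟩ := hz
      obtain ⟨-, ⟨-, -, h3', h4'⟩, h5'⟩ := hz'
      simp only at h3 h4 h5 h4' h5'
      rw [hU4 d _ h5.1 _ h5.2 h3] at h4
      rw [hU4 d' _ h5.1 _ h5.2 h3] at h4'
      have : d = d' := Fin.ext (by omega)
      rw [this]
  have h2 : ∃ d, (t + 1) * #{e ∈ kes (U d) k | e.1 ∈ V ∧ e.2 ∈ V} ≤ #(kesW V W) := by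
    by_contra hcon
    push Not at hcon
    have h3 := sum_lt_sum_of_nonempty (univ_nonempty (α := Fin (t + 1))) (fun d _ => hcon d)
    rw [sum_const, ← mul_sum, card_univ, Fintype.card_fin, smul_eq_mul] at h3
    have := Nat.mul_le_mul_left (t + 1) h1
    omega
  obtain ⟨d, hd⟩ := h2
  refine ⟨U d, hU1 d, hU2 d, hU3 d, ?_⟩
  rw [hkU]
  have h3 : #(kes (U d) k) ≤ #{e ∈ kes (U d) k | e.1 ∈ V ∧ e.2 ∈ V} + t := by
    rw [← card_filter_add_card_filter_not (s := kes (U d) k) (fun e => e.1 ∈ V ∧ e.2 ∈ V)]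
    exact Nat.add_le_add_left (hU5 d k) _
  have h4 := win hV W (K := k) (by
    intro j hj
    rw [hW, mem_Icc] at hj
    exact hj.2)
  have h5 : (k : ℝ) + 1 ≤ #V := by
    have : k + 1 ≤ #V := by omega
    exact_mod_cast this
  have h6 : (#W : ℝ) ≤ t + 1 := by
    rw [hW, Nat.card_Icc]
    have : k + 1 - (k - t) ≤ t + 1 := by omega
    exact_mod_cast this
  have h7 : ((#(kes (U d) k) : ℕ) : ℝ) * (t + 1) ≤ (#(kesW V W) : ℝ) + t * (t + 1) := by
    have h8 := Nat.mul_le_mul_right (t + 1) h3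
    have h9 : (#{e ∈ kes (U d) k | e.1 ∈ V ∧ e.2 ∈ V} + t) * (t + 1) ≤
        #(kesW V W) + t * (t + 1) := by
      rw [add_mul]
      have : #{e ∈ kes (U d) k | e.1 ∈ V ∧ e.2 ∈ V} * (t + 1) =
        (t + 1) * #{e ∈ kes (U d) k | e.1 ∈ V ∧ e.2 ∈ V} := mul_comm _ _
      omega
    exact_mod_cast h8.trans h9
  refine h7.trans ?_
  gcongr
  refine h4.trans ?_
  gcongr

end Pool.Agent.FC602
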