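import Pool.Agent.FC602.RobK
import Pool.Agent.W863.AllK
import Pool.Agent.Y375.FD.Low
import Pool.Agent.Y375.FD.Upper

/-! Levels of arrangements in terms of the pairs of lines with a given number of lines below their
crossing point. -/

set_option autoImplicit false

namespace Pool.Agent.FC602

open Finset Pool.Agent.TH124.KE
open KLev.Levels (height complexity IsVertex)
open Pool.Agent.Y375.FD (V LS RS V_of_isVertex)

open scoped Classical in
/-- crossing points with exactly `k` lines below are vertices of the `k`-level -/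
theorem kes_le_complexity {U : Finset (ℝ × ℝ)} (hU : NoThree U) (k : ℕ) :
    #(kes U k) ≤ complexity U k := by
  have hm : ∀ e : {e // e ∈ kes U k}, e.1.1 ∈ U ∧ e.1.2 ∈ U ∧ e.1.1.1 < e.1.2.1 ∧
      bel U (sl e.1.1 e.1.2) e.1.1 = k := fun e => mem_kes.mp e.2
  have hhl : ∀ (x : ℝ × ℝ) (σ : ℝ), x.1 * (-σ) + x.2 = hh σ x := by
    intro x σ; unfold hh; ring
  let S : KLev.Ev {x // x ∈ U} {e // e ∈ kes U k} k (#(kes U k)) :=
    { s := fun i => i.1.1
      t := fun i => i.1.2
      X := fun r => - sl r.1.1 r.1.2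
      a := fun r => ⟨r.1.2, (hm r).2.1⟩
      b := fun r => ⟨r.1.1, (hm r).1⟩
      tie := by
        intro r
        simp only [hhl]
        exact hh_sl (ne_of_lt (hm r).2.2.1)
      hs := fun r => (hm r).2.2.1
      hne := by
        intro r c hca hcb
        simp only [hhl]
        intro h
        have h1 : r.1.1 ≠ r.1.2 := by
          intro h; have := (hm r).2.2.1; rw [h] at this; exact lt_irrefl _ this
        refine nt_hh hU (hm r).2.1 (hm r).1 c.2 h1.symm (fun h => hca (Subtype.ext h.symm))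
          (fun h => hcb (Subtype.ext h.symm)) _ (hh_sl (ne_of_lt (hm r).2.2.1)).symm h
      hcard := by
        intro r
        simp only [hhl]
        rw [Finset.sum_coe_sort U (fun c => if hh (sl r.1.1 r.1.2) c <
          hh (sl r.1.1 r.1.2) r.1.2 then 1 else 0), ← Finset.card_filter,
          hh_sl (ne_of_lt (hm r).2.2.1)]
        exact (hm r).2.2.2
      hX := by
        intro r r' h
        have hσ : sl r.1.1 r.1.2 = sl r'.1.1 r'.1.2 := neg_injective h
        set σ := sl r.1.1 r.1.2 with hσd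
        have a1 : hh σ r.1.2 = hh σ r.1.1 := hh_sl (ne_of_lt (hm r).2.2.1)
        have a2 : hh σ r'.1.2 = hh σ r'.1.1 := by rw [hσ]; exact hh_sl (ne_of_lt (hm r').2.2.1)
        have key : ∀ r r' : {e // e ∈ kes U k}, hh σ r.1.2 = hh σ r.1.1 →
            bel U σ r.1.1 = k → bel U σ r'.1.1 = k → ¬ hh σ r.1.1 < hh σ r'.1.1 := by
          intro r r' b1 b2 b3 hlt
          have h4 : bel U σ r.1.1 < bel U σ r'.1.1 := by
            unfold bel
            apply card_lt_card
            rw [ssubset_iff_of_subset]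
            · exact ⟨r.1.1, mem_filter.mpr ⟨(hm r).1, hlt⟩,
                fun h => lt_irrefl _ (mem_filter.mp h).2⟩
            · intro x hx
              rw [mem_filter] at hx ⊢
              exact ⟨hx.1, hx.2.trans hlt⟩
          omega
        have k1 : bel U σ r.1.1 = k := (hm r).2.2.2
        have k2 : bel U σ r'.1.1 = k := by rw [hσ]; exact (hm r').2.2.2
        have heq : hh σ r'.1.1 = hh σ r.1.1 :=
          le_antisymm (not_lt.mp (key r r' a1 k1 k2)) (not_lt.mp (key r' r a2 k2 k1))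
        have hne1 : r.1.1 ≠ r.1.2 := by
          intro h; have := (hm r).2.2.1; rw [h] at this; exact lt_irrefl _ this
        have b1 : r'.1.1 = r.1.1 ∨ r'.1.1 = r.1.2 := by
          by_contra hcon
          push Not at hcon
          exact nt_hh hU (hm r).1 (hm r).2.1 (hm r').1 hne1 (Ne.symm hcon.1) (Ne.symm hcon.2)
            σ a1 heq
        have b2 : r'.1.2 = r.1.1 ∨ r'.1.2 = r.1.2 := by
          by_contra hcon
          push Not at hcon
          exact nt_hh hU (hm r).1 (hm r).2.1 (hm r').2.1 hne1 (Ne.symm hcon.1) (Ne.symm hcon.2)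
            σ a1 (a2.trans heq)
        have l1 := (hm r).2.2.1
        have l2 := (hm r').2.2.1
        apply Subtype.ext
        rcases b1 with b1 | b1 <;> rcases b2 with b2 | b2
        · rw [b1, b2] at l2; exact absurd l2 (lt_irrefl _)
        · exact (Prod.ext b1 b2).symm
        · rw [b1, b2] at l2; exact absurd l2 (lt_asymm l1)
        · rw [b1, b2] at l2; exact absurd l2 (lt_irrefl _)
      slot := fun r => (kes U k).equivFin r
      hslot := fun r r' _ h => (kes U k).equivFin.injective h }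
  have h := Pool.Agent.Y375.FD.complexity_ge S (fun i => i.1) (by funext i; rfl)
    Subtype.val_injective U (fun l => ⟨fun h => ⟨⟨l, h⟩, rfl⟩, fun ⟨i, hi⟩ => hi ▸ i.2⟩)
  rwa [Fintype.card_coe] at h

open scoped Classical in
/-- the vertices of the `k`-level are crossing points with `k` or `k - 1` lines below -/
theorem complexity_le_kes {U : Finset (ℝ × ℝ)} (hU : NoThree U) (k : ℕ) :
    complexity U k ≤ #(kes U k) + if k = 0 then 0 else #(kes U (k - 1)) := by
  have hex : ∀ p : ℝ × ℝ, ∃ e : (ℝ × ℝ) × (ℝ × ℝ), IsVertex U k p →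
      (e.1 ∈ U ∧ e.2 ∈ U ∧ e.1.1 < e.2.1 ∧ height e.1 p.1 = p.2 ∧ height e.2 p.1 = p.2 ∧
        (bel U (sl e.1 e.2) e.1 = k ∨ bel U (sl e.1 e.2) e.1 + 1 = k)) := by
    intro p
    by_cases hp : IsVertex U k p
    swap
    · exact ⟨((0, 0), (0, 0)), fun h => absurd h hp⟩
    obtain ⟨l, m, hl, hm, hlm, hlp, hmp, hL, hR⟩ := V_of_isVertex hp
    have hs : l.1 ≠ m.1 := by
      intro h
      apply hlm
      refine Prod.ext h ?_
      unfold height at hlp hmp
      rw [h] at hlp
      linarith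
    have hsl : sl l m = - p.1 := by
      unfold sl
      rw [div_eq_iff (sub_ne_zero.mpr (Ne.symm hs))]
      unfold height at hlp hmp
      linarith
    have hb : bel U (-p.1) l = #{j ∈ U | height j p.1 < p.2} := by
      unfold bel
      congr 1
      ext j
      rw [mem_filter, mem_filter, ← hlp, height_hh, height_hh]
    have hb' : bel U (-p.1) m = #{j ∈ U | height j p.1 < p.2} := by
      unfold bel
      congr 1
      ext j
      rw [mem_filter, mem_filter, ← hmp, height_hh, height_hh]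
    have hthr : ∀ j ∈ U, height j p.1 = p.2 → j = l ∨ j = m := by
      intro j hj hjp
      by_contra hcon
      push Not at hcon
      exact hU l hl m hm j hj hlm (Ne.symm hcon.1) (Ne.symm hcon.2) p.1
        ⟨hlp.trans hmp.symm, hmp.trans hjp.symm⟩
    rcases lt_or_gt_of_ne hs with h | h
    · refine ⟨(l, m), fun _ => ⟨hl, hm, h, hlp, hmp, Or.inr ?_⟩⟩
      simp only
      rw [hsl, hb, ← hL]
      unfold LS
      have e : ({j ∈ U | height j p.1 < p.2 ∨ (height j p.1 = p.2 ∧ l.1 < j.1)} : Finset (ℝ × ℝ)) =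
          insert m {j ∈ U | height j p.1 < p.2} := by
        ext j
        rw [mem_filter, mem_insert, mem_filter]
        constructor
        · rintro ⟨h1, h2 | ⟨h2, h3⟩⟩
          · exact Or.inr ⟨h1, h2⟩
          · rcases hthr j h1 h2 with h4 | h4
            · rw [h4] at h3; exact absurd h3 (lt_irrefl _)
            · exact Or.inl h4
        · rintro (h1 | ⟨h1, h2⟩)
          · rw [h1]; exact ⟨hm, Or.inr ⟨hmp, h⟩⟩
          · exact ⟨h1, Or.inl h2⟩
      rw [e, card_insert_of_notMem]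
      intro h1
      exact absurd hmp (ne_of_lt (mem_filter.mp h1).2)
    · refine ⟨(m, l), fun _ => ⟨hm, hl, h, hmp, hlp, Or.inl ?_⟩⟩
      simp only
      rw [sl_comm, hsl, hb', ← hL]
      unfold LS
      congr 1
      ext j
      rw [mem_filter, mem_filter]
      constructor
      · rintro ⟨h1, h2⟩
        exact ⟨h1, Or.inl h2⟩
      · rintro ⟨h1, h2 | ⟨h2, h3⟩⟩
        · exact ⟨h1, h2⟩
        · rcases hthr j h1 h2 with h4 | h4
          · rw [h4] at h3; exact absurd h3 (lt_irrefl _)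
          · rw [h4] at h3; exact absurd h3 (lt_asymm h)
  choose g hg using hex
  set T : Finset ((ℝ × ℝ) × (ℝ × ℝ)) := kes U k ∪ (if k = 0 then ∅ else kes U (k - 1)) with hT
  have h1 : complexity U k ≤ #T := by
    unfold complexity
    rw [← Set.ncard_coe_finset]
    refine Set.ncard_le_ncard_of_injOn g ?_ ?_ T.finite_toSet
    · intro p hp
      obtain ⟨a1, a2, a3, a4, a5, a6⟩ := hg p hp
      rw [mem_coe, hT, mem_union]
      rcases a6 with a6 | a6
      · left
        rw [mem_kes]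
        exact ⟨a1, a2, a3, a6⟩
      · right
        rw [if_neg (by omega), mem_kes]
        exact ⟨a1, a2, a3, by omega⟩
    · intro p hp q hq h
      obtain ⟨a1, a2, a3, a4, a5, a6⟩ := hg p hp
      obtain ⟨b1, b2, b3, b4, b5, b6⟩ := hg q hq
      rw [← h] at b4 b5
      have hx : p.1 = q.1 := by
        unfold height at a4 a5 b4 b5
        have h2 : ((g p).1.1 - (g p).2.1) * (p.1 - q.1) = 0 := by linarith
        rcases mul_eq_zero.mp h2 with h3 | h3
        · linarith
        · linarith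
      refine Prod.ext hx ?_
      rw [← a4, ← b4, hx]
  refine h1.trans ((card_union_le _ _).trans ?_)
  split_ifs with h
  · simp
  · exact le_rfl

lemma nt_of_gp {P : Finset (ℝ × ℝ)} (hP : GP P) : NoThree P := by
  rintro l hl m hm j hj hlm hlj hmj x ⟨h1, h2⟩
  rw [height_hh, height_hh] at h1 h2
  apply hP.col l hl m hm j hj hlm hlj hmj
  rw [(hh_eq (hP.ne1 hl hm hlm) (-x)).mp h1.symm,
    (hh_eq (hP.ne1 hl hj hlj) (-x)).mp (h1.trans h2).symm]

open Classical in
/-- **insertion** of exactly `t` lines -/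
theorem insK {V : Finset (ℝ × ℝ)} (hV : GP V) (k t : ℕ) :
    ∃ V' : Finset (ℝ × ℝ), V ⊆ V' ∧ GP V' ∧ #V' = #V + t ∧
      (complexity V' k : ℝ) * (t + 1) ≤
        36 * #V * (((k : ℝ) + 1) ^ (1 / 3 : ℝ) * ((t : ℝ) + 2) ^ (2 / 3 : ℝ)) +
          2 * t * (t + 1) := by
  have h : ∀ d : Fin (t + 1), ∃ V' : Finset (ℝ × ℝ), V ⊆ V' ∧ GP V' ∧ #V' = #V + t ∧
      (∀ p ∈ V, ∀ q ∈ V, p.1 < q.1 → bel V' (sl p q) p = bel V (sl p q) p + d) ∧
      ∀ k, #{e ∈ kes V' k | ¬ (e.1 ∈ V ∧ e.2 ∈ V)} ≤ t := by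
    intro d
    obtain ⟨V', h1, h2, h3, h4, h5⟩ := add_many hV (t - d) d
    have := d.2
    exact ⟨V', h1, h2, by omega, h4, fun k => (h5 k).trans (by omega)⟩
  choose U hU1 hU2 hU3 hU4 hU5 using h
  set W := Icc (k - (t + 1)) k with hW
  -- old pairs
  have h1 : ∀ j, k ≤ j + 1 → j ≤ k →
      ∑ d, #{e ∈ kes (U d) j | e.1 ∈ V ∧ e.2 ∈ V} ≤ #(kesW V W) := by
    intro j hj1 hj2
    rw [← card_sigma]
    apply card_le_card_of_injOn (fun z => z.2)
    · rintro ⟨d, e⟩ hz
      rw [mem_coe, mem_sigma, mem_filter, mem_kes] at hz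
      obtain ⟨-, ⟨-, -, h3, h4⟩, h5⟩ := hz
      simp only at h3 h4 h5
      rw [hU4 d _ h5.1 _ h5.2 h3] at h4
      rw [mem_coe, mem_kesW, hW, mem_Icc]
      have := d.2
      exact ⟨h5.1, h5.2, h3, by simp only; omega⟩
    · rintro ⟨d, e⟩ hz ⟨d', e'⟩ hz' h
      simp only at h
      subst h
      rw [mem_coe, mem_sigma, mem_filter, mem_kes] at hz hz'
      obtain ⟨-, ⟨-, -, h3, h4⟩, h5⟩ := hz
      obtain ⟨-, ⟨-, -, h3', h4'⟩, h5'⟩ := hz'
      simp only at h3 h4 h5 h4' h5'
      rw [hU4 d _ h5.1 _ h5.2 h3] at h4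
      rw [hU4 d' _ h5.1 _ h5.2 h3] at h4'
      have : d = d' := Fin.ext (by omega)
      rw [this]
  set N : Fin (t + 1) → ℕ := fun d => #{e ∈ kes (U d) k | e.1 ∈ V ∧ e.2 ∈ V} +
    if k = 0 then 0 else #{e ∈ kes (U d) (k - 1) | e.1 ∈ V ∧ e.2 ∈ V} with hN
  have hNs : ∑ d, N d ≤ 2 * #(kesW V W) := by
    rw [hN, sum_add_distrib]
    have h2 := h1 k (by omega) le_rfl
    have h3 : ∑ d, (if k = 0 then 0 else #{e ∈ kes (U d) (k - 1) | e.1 ∈ V ∧ e.2 ∈ V}) ≤
        #(kesW V W) := by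
      by_cases hk : k = 0
      · simp [hk]
      · simp only [hk, if_false]
        exact h1 (k - 1) (by omega) (by omega)
    omega
  have h2 : ∃ d, (t + 1) * N d ≤ 2 * #(kesW V W) := by
    by_contra hcon
    push Not at hcon
    have h3 := sum_lt_sum_of_nonempty (univ_nonempty (α := Fin (t + 1))) (fun d _ => hcon d)
    rw [sum_const, ← mul_sum, card_univ, Fintype.card_fin, smul_eq_mul] at h3
    have := Nat.mul_le_mul_left (t + 1) hNs
    omega
  obtain ⟨d, hd⟩ := h2
  refine ⟨U d, hU1 d, hU2 d, hU3 d, ?_⟩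
  have h3 : ∀ j, #(kes (U d) j) ≤ #{e ∈ kes (U d) j | e.1 ∈ V ∧ e.2 ∈ V} + t := by
    intro j
    rw [← card_filter_add_card_filter_not (s := kes (U d) j) (fun e => e.1 ∈ V ∧ e.2 ∈ V)]
    exact Nat.add_le_add_left (hU5 d j) _
  have h4 : complexity (U d) k ≤ N d + 2 * t := by
    refine (complexity_le_kes (nt_of_gp (hU2 d)) k).trans ?_
    rw [hN]
    have a1 := h3 k
    have a2 := h3 (k - 1)
    simp only
    split_ifs <;> omega
  have h5 := win hV W (K := k) (by
    intro j hj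
    rw [hW, mem_Icc] at hj
    exact hj.2)
  have h6 : (#W : ℝ) ≤ t + 2 := by
    rw [hW, Nat.card_Icc]
    have : k + 1 - (k - (t + 1)) ≤ t + 2 := by omega
    exact_mod_cast this
  have h7 : ((complexity (U d) k : ℕ) : ℝ) * (t + 1) ≤
      2 * (#(kesW V W) : ℝ) + 2 * t * (t + 1) := by
    have h8 := Nat.mul_le_mul_right (t + 1) h4
    have h9 : (N d + 2 * t) * (t + 1) ≤ 2 * #(kesW V W) + 2 * t * (t + 1) := by
      rw [add_mul]
      have : N d * (t + 1) = (t + 1) * N d := mul_comm _ _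
      omega
    exact_mod_cast h8.trans h9
  refine h7.trans (add_le_add ?_ le_rfl)
  calc 2 * (#(kesW V W) : ℝ) ≤ 2 * (18 * #V * (((k : ℝ) + 1) ^ (1 / 3 : ℝ) *
        (#W : ℝ) ^ (2 / 3 : ℝ))) := by gcongr
    _ ≤ 2 * (18 * #V * (((k : ℝ) + 1) ^ (1 / 3 : ℝ) * ((t : ℝ) + 2) ^ (2 / 3 : ℝ))) := by gcongr
    _ = _ := by ring

/-- the insertion bound in closed form -/
theorem insK' {V : Finset (ℝ × ℝ)} (hV : GP V) (k t : ℕ) :
    ∃ V' : Finset (ℝ × ℝ), V ⊆ V' ∧ GP V' ∧ #V' = #V + t ∧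
      (complexity V' k : ℝ) ≤
        58 * #V * (((k : ℝ) + 1) / (t + 1)) ^ (1 / 3 : ℝ) + 2 * t := by
  obtain ⟨V', h1, h2, h3, h4⟩ := insK hV k t
  refine ⟨V', h1, h2, h3, ?_⟩
  have ht : (0 : ℝ) ≤ t := Nat.cast_nonneg t
  have ht1 : (0 : ℝ) < (t : ℝ) + 1 := by positivity
  have hk1 : (0 : ℝ) < (k : ℝ) + 1 := by positivity
  set y : ℝ := (((k : ℝ) + 1) / (t + 1)) ^ (1 / 3 : ℝ) with hy
  have hy0 : 0 < y := by positivity
  have hy3 : y ^ 3 = ((k : ℝ) + 1) / (t + 1) := by
    rw [hy, ← Real.rpow_natCast, ← Real.rpow_mul (by positivity)]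
    norm_num
  set z : ℝ := ((k : ℝ) + 1) ^ (1 / 3 : ℝ) * ((t : ℝ) + 2) ^ (2 / 3 : ℝ) with hz
  have hz0 : 0 < z := by positivity
  have hz3 : z ^ 3 = ((k : ℝ) + 1) * ((t : ℝ) + 2) ^ 2 := by
    rw [hz, mul_pow, ← Real.rpow_natCast, ← Real.rpow_mul (by positivity),
      ← Real.rpow_natCast (((t : ℝ) + 2) ^ (2 / 3 : ℝ)), ← Real.rpow_mul (by positivity)]
    norm_num
  have hzy : 36 * z ≤ 58 * (t + 1) * y := by
    have h5 : (36 * z) ^ 3 ≤ (58 * (t + 1) * y) ^ 3 := by
      rw [mul_pow, hz3, mul_pow (58 * ((t : ℝ) + 1)) y, hy3]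
      have e : (58 * ((t : ℝ) + 1)) ^ 3 * (((k : ℝ) + 1) / (t + 1)) =
          195112 * (((k : ℝ) + 1) * (t + 1) ^ 2) := by
        field_simp
        ring
      rw [e]
      have h6 : ((t : ℝ) + 2) ^ 2 ≤ 4 * (t + 1) ^ 2 := by nlinarith
      calc (36 : ℝ) ^ 3 * (((k : ℝ) + 1) * ((t : ℝ) + 2) ^ 2) ≤
            (36 : ℝ) ^ 3 * (((k : ℝ) + 1) * (4 * (t + 1) ^ 2)) := by gcongr
        _ = 186624 * (((k : ℝ) + 1) * (t + 1) ^ 2) := by ring
        _ ≤ _ := by
            have : 0 ≤ ((k : ℝ) + 1) * (t + 1) ^ 2 := by positivity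
            nlinarith
    exact le_of_pow_le_pow_left₀ (by norm_num) (by positivity) h5
  have hn : (0 : ℝ) ≤ #V := Nat.cast_nonneg _
  have h8 : (complexity V' k : ℝ) * (t + 1) ≤ (58 * #V * y + 2 * t) * (t + 1) := by
    refine h4.trans ?_
    calc 36 * (#V : ℝ) * z + 2 * t * (t + 1) = #V * (36 * z) + 2 * t * (t + 1) := by ring
      _ ≤ #V * (58 * (t + 1) * y) + 2 * t * (t + 1) := by gcongr
      _ = _ := by ring
  exact le_of_mul_le_mul_right h8 ht1

end Pool.Agent.FC602
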