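import Pool.Agent.FC602.Win

/-! Two lines such that each of their four open quadrants contains many points of the set. -/

set_option autoImplicit false

namespace Pool.Agent.FC602

open Finset Pool.Agent.TH124.KE

/-- two lines, one of them vertical, with at least `m` points in each open quadrant -/
theorem quad {V : Finset (ℝ × ℝ)} (hV : GP V) {m : ℕ} (hm : 4 * m + 3 ≤ #V) :
    ∃ x0 σ h0 : ℝ, m ≤ #{r ∈ V | r.1 < x0 ∧ hh σ r < h0} ∧ m ≤ #{r ∈ V | r.1 < x0 ∧ h0 < hh σ r} ∧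
      m ≤ #{r ∈ V | x0 < r.1 ∧ hh σ r < h0} ∧ m ≤ #{r ∈ V | x0 < r.1 ∧ h0 < hh σ r} := by
  classical
  obtain ⟨o, ho, ho2⟩ := exists_rank V (fun r => r.1) (fun p hp q hq h => hV.inj p hp q hq h)
    (k := 2 * m + 1) (by omega)
  set A := {r ∈ V | r.1 < o.1} with hA
  set C := {r ∈ V | o.1 < r.1} with hC
  have hAV : ∀ a ∈ A, a ∈ V := fun a ha => (mem_filter.mp ha).1
  have hCV : ∀ a ∈ C, a ∈ V := fun a ha => (mem_filter.mp ha).1
  have hAC : ∀ a ∈ A, ∀ c ∈ C, a.1 < c.1 := fun a ha c hc =>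
    (mem_filter.mp ha).2.trans (mem_filter.mp hc).2
  have hAcard : #A = 2 * m + 1 := ho2
  have hCcard : 2 * m + 1 ≤ #C := by
    have h1 : V ⊆ insert o (A ∪ C) := by
      intro r hr
      rcases lt_trichotomy r.1 o.1 with h | h | h
      · exact mem_insert_of_mem (mem_union_left _ (mem_filter.mpr ⟨hr, h⟩))
      · rw [hV.inj r hr o ho h]; exact mem_insert_self _ _
      · exact mem_insert_of_mem (mem_union_right _ (mem_filter.mpr ⟨hr, h⟩))
    have h2 := card_le_card h1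
    have h3 := card_insert_le o (A ∪ C)
    have h4 := card_union_le A C
    omega
  have hCC : ∀ r ∈ C, r ∈ V ∧ o.1 < r.1 := fun r hr => mem_filter.mp hr
  clear_value A C
  -- the halving partner
  have hex : ∀ c : ℝ × ℝ, ∃ a : ℝ × ℝ, c ∈ C → a ∈ A ∧
      #{b ∈ A | hh (sl c a) b < hh (sl c a) c} = m := by
    intro c
    by_cases hc : c ∈ C
    · obtain ⟨a, ha, ha2⟩ := exists_rank A (fun r => - sl c r) (by
        intro p hp q hq h
        by_contra hpq
        have hp' := mem_coe.mp hp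
        have hq' := mem_coe.mp hq
        refine hV.col c (hCV c hc) p (hAV p hp') q (hAV q hq') ?_ ?_ hpq (neg_inj.mp h)
        · rintro rfl; exact lt_irrefl _ (hAC _ hp' _ hc)
        · rintro rfl; exact lt_irrefl _ (hAC _ hq' _ hc)) (k := m) (by omega)
      refine ⟨a, fun _ => ⟨ha, ?_⟩⟩
      rw [← ha2]
      congr 1
      ext b
      rw [mem_filter, mem_filter]
      constructor
      · rintro ⟨hb, h⟩
        rw [hh_lt_left (hAC b hb c hc)] at h
        exact ⟨hb, by linarith⟩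
      · rintro ⟨hb, h⟩
        refine ⟨hb, ?_⟩
        rw [hh_lt_left (hAC b hb c hc)]
        linarith
    · exact ⟨c, fun h => absurd h hc⟩
  choose g hg using hex
  set θ : ℝ × ℝ → ℝ := fun c => sl c (g c) with hθ
  have hgA : ∀ c ∈ C, g c ∈ A := fun c hc => (hg c hc).1
  have hgm : ∀ c ∈ C, #{b ∈ A | hh (θ c) b < hh (θ c) c} = m := fun c hc => (hg c hc).2
  have hgl : ∀ c ∈ C, hh (θ c) (g c) = hh (θ c) c := fun c hc =>
    hh_sl (ne_of_gt (hAC _ (hgA c hc) c hc))
  have cmp : ∀ c ∈ C, ∀ c' ∈ C, (∀ b ∈ A, hh (θ c) b ≤ hh (θ c) c → hh (θ c') b < hh (θ c') c') →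
      False := by
    intro c hc c' hc' h
    have h1 : #{b ∈ A | hh (θ c) b < hh (θ c) c} < #{b ∈ A | hh (θ c') b < hh (θ c') c'} := by
      apply card_lt_card
      rw [ssubset_iff_of_subset]
      · refine ⟨g c, ?_, ?_⟩
        · rw [mem_filter]
          exact ⟨hgA c hc, h _ (hgA c hc) (hgl c hc).le⟩
        · rw [mem_filter, hgl c hc]
          intro h2
          exact lt_irrefl _ h2.2
      · intro b hb
        rw [mem_filter] at hb ⊢
        exact ⟨hb.1, h b hb.1 hb.2.le⟩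
    rw [hgm c hc, hgm c' hc'] at h1
    exact lt_irrefl _ h1
  have k1 : ∀ c ∈ C, ∀ c' ∈ C, θ c' < θ c → hh (θ c') c' < hh (θ c') c := by
    intro c hc c' hc' h
    by_contra h2
    push Not at h2
    apply cmp c hc c' hc'
    intro b hb hb2
    have h3 := hAC b hb c hc
    unfold hh at h2 hb2 ⊢
    nlinarith [mul_pos (sub_pos.mpr h) (sub_pos.mpr h3)]
  have k2 : ∀ c ∈ C, ∀ c' ∈ C, θ c < θ c' → hh (θ c') c < hh (θ c') c' := by
    intro c hc c' hc' h
    by_contra h2
    push Not at h2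
    apply cmp c' hc' c hc
    intro b hb hb2
    have h3 := hAC b hb c hc
    unfold hh at h2 hb2 ⊢
    nlinarith [mul_pos (sub_pos.mpr h) (sub_pos.mpr h3)]
  have k3 : Set.InjOn θ C := by
    intro c hc c' hc' h
    rw [mem_coe] at hc hc'
    have h1 : hh (θ c') c = hh (θ c') c' := by
      rcases lt_trichotomy (hh (θ c') c) (hh (θ c') c') with h2 | h2 | h2
      · exfalso
        apply cmp c hc c' hc'
        intro b hb hb2
        rw [h] at hb2
        linarith
      · exact h2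
      · exfalso
        apply cmp c' hc' c hc
        intro b hb hb2
        rw [h]
        linarith
    by_contra hcc
    have h2 := hgl c' hc'
    have h3 := hgA c' hc'
    have h4 : c' ≠ g c' := by
      intro h5; rw [← h5] at h3; exact lt_irrefl _ (hAC _ h3 _ hc')
    have h5 : c ≠ g c' := by
      intro h6; rw [← h6] at h3; exact lt_irrefl _ (hAC _ h3 _ hc)
    refine hV.col c' (hCV _ hc') c (hCV _ hc) (g c') (hAV _ h3) (Ne.symm hcc) h4 h5 ?_
    rw [(hh_eq (hV.ne1 (hCV _ hc') (hCV _ hc) (Ne.symm hcc)) _).mp h1,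
      (hh_eq (hV.ne1 (hCV _ hc') (hAV _ h3) h4) _).mp h2]
  obtain ⟨c, hc, hc2⟩ := exists_rank C θ k3 (k := m) (by omega)
  refine ⟨o.1, θ c, hh (θ c) c, ?_, ?_, ?_, ?_⟩
  · rw [← hgm c hc, hA, filter_filter]
  · have h1 : A ⊆ {b ∈ A | hh (θ c) b < hh (θ c) c} ∪ ({b ∈ A | hh (θ c) c < hh (θ c) b} ∪
        {b ∈ A | hh (θ c) b = hh (θ c) c}) := by
      intro b hb
      rw [mem_union, mem_union, mem_filter, mem_filter, mem_filter]
      rcases lt_trichotomy (hh (θ c) b) (hh (θ c) c) with h | h | h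
      · exact Or.inl ⟨hb, h⟩
      · exact Or.inr (Or.inr ⟨hb, h⟩)
      · exact Or.inr (Or.inl ⟨hb, h⟩)
    have h2 : #{b ∈ A | hh (θ c) b = hh (θ c) c} ≤ 1 := by
      rw [card_le_one]
      intro x hx y hy
      rw [mem_filter] at hx hy
      by_contra hxy
      have hx1 : c ≠ x := by rintro rfl; exact lt_irrefl _ (hAC _ hx.1 _ hc)
      have hy1 : c ≠ y := by rintro rfl; exact lt_irrefl _ (hAC _ hy.1 _ hc)
      refine hV.col c (hCV _ hc) x (hAV _ hx.1) y (hAV _ hy.1) hx1 hy1 hxy ?_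
      rw [(hh_eq (hV.ne1 (hCV _ hc) (hAV _ hx.1) hx1) _).mp hx.2,
        (hh_eq (hV.ne1 (hCV _ hc) (hAV _ hy.1) hy1) _).mp hy.2]
    have h3 := (card_le_card h1).trans ((card_union_le _ _).trans
      (Nat.add_le_add_left (card_union_le _ _) _))
    rw [hgm c hc] at h3
    rw [← filter_filter, ← hA]
    omega
  · rw [← hc2]
    apply card_le_card
    intro r hr
    rw [mem_filter] at hr
    rw [mem_filter]
    exact ⟨hCV _ hr.1, (hCC _ hr.1).2, k2 r hr.1 c hc hr.2⟩
  · have h1 : C ⊆ {b ∈ C | θ b < θ c} ∪ ({b ∈ C | θ c < θ b} ∪ {c}) := by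
      intro b hb
      rw [mem_union, mem_union, mem_filter, mem_filter, mem_singleton]
      rcases lt_trichotomy (θ b) (θ c) with h | h | h
      · exact Or.inl ⟨hb, h⟩
      · exact Or.inr (Or.inr (k3 hb hc h))
      · exact Or.inr (Or.inl ⟨hb, h⟩)
    have h3 := (card_le_card h1).trans ((card_union_le _ _).trans
      (Nat.add_le_add_left (card_union_le _ _) _))
    rw [hc2, card_singleton] at h3
    have h4 : #{b ∈ C | θ c < θ b} ≤ #{r ∈ V | o.1 < r.1 ∧ hh (θ c) c < hh (θ c) r} := by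
      apply card_le_card
      intro r hr
      rw [mem_filter] at hr
      rw [mem_filter]
      exact ⟨hCV _ hr.1, (hCC _ hr.1).2, k1 r hr.1 c hc hr.2⟩
    omega

/-- Every line lies on one side of one of the quadrants. -/
lemma miss (x0 σ h0 τ h1 : ℝ) :
    (∀ r : ℝ × ℝ, r.1 < x0 ∧ hh σ r < h0 → hh τ r < h1) ∨
    (∀ r : ℝ × ℝ, r.1 < x0 ∧ h0 < hh σ r → h1 < hh τ r) ∨
    (∀ r : ℝ × ℝ, x0 < r.1 ∧ hh σ r < h0 → hh τ r < h1) ∨
    (∀ r : ℝ × ℝ, x0 < r.1 ∧ h0 < hh σ r → h1 < hh τ r) := by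
  -- at `x0` the difference of the two lines is `h0 - h1 + (σ - τ) x0`
  rcases le_total (h0 + (σ - τ) * x0) h1 with hd | hd <;> rcases le_total σ τ with hs | hs
  · right; right; left
    rintro r ⟨h3, h4⟩
    unfold hh at h4 ⊢
    nlinarith [mul_nonneg (sub_nonneg.mpr hs) (sub_nonneg.mpr h3.le)]
  · left
    rintro r ⟨h3, h4⟩
    unfold hh at h4 ⊢
    nlinarith [mul_nonneg (sub_nonneg.mpr hs) (sub_nonneg.mpr h3.le)]
  · right; left
    rintro r ⟨h3, h4⟩
    unfold hh at h4 ⊢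
    nlinarith [mul_nonneg (sub_nonneg.mpr hs) (sub_nonneg.mpr h3.le)]
  · right; right; right
    rintro r ⟨h3, h4⟩
    unfold hh at h4 ⊢
    nlinarith [mul_nonneg (sub_nonneg.mpr hs) (sub_nonneg.mpr h3.le)]

end Pool.Agent.FC602
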