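import Pool.Agent.FC602.Sweep

/-! Point sets with many bisectors that cannot be destroyed by few changes. -/

set_option autoImplicit false

namespace Pool.Agent.FC602

open Finset Pool.Agent.TH124.KE
open Pool.Agent.W296.HL (Gen cr IsBisector Line bis_finite)

lemma exists_gap {Q : Finset (ℝ × ℝ)} (hQ : GP Q) : ∃ β : ℝ, 0 < β ∧ ∀ a ∈ Q, ∀ b ∈ Q, ∀ c ∈ Q,
    a ≠ b → a ≠ c → b ≠ c → 2 * β ≤ |sl a b - sl a c| := by
  classical
  obtain ⟨B, hB⟩ := ((Q ×ˢ Q ×ˢ Q).image (fun z => |sl z.1 z.2.1 - sl z.1 z.2.2|⁻¹)).exists_le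
  refine ⟨1 / (2 * (|B| + 1)), by positivity, ?_⟩
  intro a ha b hb c hc hab hac hbc
  have h1 := hB _ (mem_image.mpr ⟨(a, b, c), mem_product.mpr ⟨ha, mem_product.mpr ⟨hb, hc⟩⟩, rfl⟩)
  simp only at h1
  have h2 : 0 < |sl a b - sl a c| := abs_pos.mpr (sub_ne_zero.mpr (hQ.col a ha b hb c hc hab hac hbc))
  have h3 : |sl a b - sl a c|⁻¹ ≤ |B| + 1 := by
    have := le_abs_self B
    linarith
  have h4 : 2 * (1 / (2 * (|B| + 1))) = (|B| + 1)⁻¹ := by
    have : 0 < |B| + 1 := by positivity
    field_simp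
  rw [h4]
  exact inv_le_of_inv_le₀ h2 h3

lemma on_line {U : Finset (ℝ × ℝ)} (hU : Gen U) {p r x : ℝ × ℝ} (hp : p ∈ U) (hr : r ∈ U)
    (hx : x ∈ U) (hpr : p.1 < r.1) (h : x ∈ Line (- sl p r) 1 (hh (sl p r) p)) :
    x = p ∨ x = r := by
  by_contra hcon
  push Not at hcon
  refine hU p hp r hr x hx (by rintro rfl; exact lt_irrefl _ hpr) (Ne.symm hcon.1)
    (Ne.symm hcon.2) ?_
  have h3 : - sl p r * x.1 + 1 * x.2 = hh (sl p r) p := h
  have h4 : x.2 - p.2 = sl p r * (x.1 - p.1) := by
    unfold hh at h3; linarith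
  have h5 : sl p r * (r.1 - p.1) = r.2 - p.2 := by
    unfold sl; rw [div_mul_cancel₀ _ (by linarith)]
  unfold cr
  rw [h4, ← h5]
  ring

lemma mem_line_left (p r : ℝ × ℝ) : p ∈ Line (- sl p r) 1 (hh (sl p r) p) := by
  change - sl p r * p.1 + 1 * p.2 = hh (sl p r) p
  unfold hh; ring

lemma mem_line_right {p r : ℝ × ℝ} (h : p.1 < r.1) : r ∈ Line (- sl p r) 1 (hh (sl p r) p) := by
  change - sl p r * r.1 + 1 * r.2 = hh (sl p r) p
  rw [← hh_sl (ne_of_lt h)]
  unfold hh; ring

/-- **Robust lower bound** -/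
theorem robust {Q : Finset (ℝ × ℝ)} (hQ : GP Q) {q : ℕ} (hq : #Q = 2 * q) (M : ℕ) :
    ∃ P : Finset (ℝ × ℝ), GP P ∧ #P = 2 * q * M ∧ ∀ U : Finset (ℝ × ℝ), Gen U → Even #U →
      #(kes Q (q - 1)) * (M - (2 * (#(P \ U) + #(U \ P)) + 1)) ≤ {L | IsBisector U L}.ncard := by
  classical
  obtain ⟨β, hβ, hgap⟩ := exists_gap hQ
  obtain ⟨C, hC1, hC2, hC3, hC4⟩ := blow (Q := Q) M
    ((kes Q (q - 1)).image (fun e => sl e.1 e.2 - β) ∪
      (kes Q (q - 1)).image (fun e => sl e.1 e.2 + β))
  set P := Q.biUnion C with hP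
  have hCP : ∀ a ∈ Q, C a ⊆ P := fun a ha => subset_biUnion_of_mem C ha
  have hPc : #P = 2 * q * M := by
    rw [hP, card_biUnion (fun a ha b hb hab => hC2 a ha b hb hab), sum_congr rfl hC1, sum_const,
      hq, smul_eq_mul]
  refine ⟨P, hC3, hPc, ?_⟩
  intro U hU hE
  obtain ⟨s, hs⟩ := hE
  have hs' : #U = 2 * s := by omega
  set δ := #(P \ U) with hδ
  set α := #(U \ P) with hα
  have hcount : 2 * s + δ = 2 * q * M + α := by
    have h1 := card_sdiff_add_card_inter P U
    have h2 := card_sdiff_add_card_inter U P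
    rw [inter_comm] at h2
    omega
  have hbelUP : ∀ σ p, bel U σ p ≤ bel P σ p + α := by
    intro σ p
    unfold bel
    refine (card_le_card ?_).trans (card_union_le _ _)
    intro r hr
    rw [mem_filter] at hr
    rw [mem_union, mem_filter, mem_sdiff]
    by_cases h : r ∈ P
    · exact Or.inl ⟨h, hr.2⟩
    · exact Or.inr ⟨hr.1, h⟩
  have hbelPU : ∀ σ p, bel P σ p ≤ bel U σ p + δ := by
    intro σ p
    unfold bel
    refine (card_le_card ?_).trans (card_union_le _ _)
    intro r hr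
    rw [mem_filter] at hr
    rw [mem_union, mem_filter, mem_sdiff]
    by_cases h : r ∈ U
    · exact Or.inl ⟨h, hr.2⟩
    · exact Or.inr ⟨hr.1, h⟩
  set G : (ℝ × ℝ) × (ℝ × ℝ) → Finset (ℝ × ℝ) := fun e =>
    {p ∈ C e.1 | p ∈ U ∧ bel U (sl e.1 e.2 - β) p < s ∧ s ≤ bel U (sl e.1 e.2 + β) p} with hG
  -- size of the good sets
  have hGc : ∀ e ∈ kes Q (q - 1), M - (2 * (δ + α) + 1) ≤ #(G e) := by
    rintro ⟨a, b⟩ he
    have he' := mem_kes.mp he
    obtain ⟨ha, hb, hab, hk⟩ := he'
    simp only at ha hb hab hk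
    have hq1 : 1 ≤ q := by
      have : 0 < #Q := card_pos.mpr ⟨a, ha⟩
      omega
    set σ := sl a b with hσ
    have hab' : a ≠ b := by rintro rfl; exact lt_irrefl _ hab
    have hS1 : σ - β ∈ (kes Q (q - 1)).image (fun e => sl e.1 e.2 - β) ∪
        (kes Q (q - 1)).image (fun e => sl e.1 e.2 + β) :=
      mem_union_left _ (mem_image.mpr ⟨(a, b), he, rfl⟩)
    have hS2 : σ + β ∈ (kes Q (q - 1)).image (fun e => sl e.1 e.2 - β) ∪
        (kes Q (q - 1)).image (fun e => sl e.1 e.2 + β) :=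
      mem_union_right _ (mem_image.mpr ⟨(a, b), he, rfl⟩)
    have hA : ∀ c ∈ Q, hh (σ - β) c < hh (σ - β) a → hh σ c < hh σ a := by
      intro c hc h
      by_cases hcb : c = b
      · rw [hcb] at h
        have := (hh_lt_right hab _).mp h
        rw [← hσ] at this
        linarith
      · rcases lt_trichotomy c.1 a.1 with h1 | h1 | h1
        · have h2 := (hh_lt_left h1 _).mp h
          rw [hh_lt_left h1]
          have hac : a ≠ c := by rintro rfl; exact lt_irrefl _ h1
          have h3 := hgap a ha b hb c hc hab' hac (Ne.symm hcb)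
          rw [← hσ] at h3
          rcases le_abs.mp h3 with h4 | h4 <;> linarith
        · rw [hQ.inj c hc a ha h1] at h
          exact absurd h (lt_irrefl _)
        · have h2 := (hh_lt_right h1 _).mp h
          rw [hh_lt_right h1]
          linarith
    have hne : ∀ c ∈ Q, c ≠ a → hh (σ - β) c ≠ hh (σ - β) a := by
      intro c hc hca h
      have h1 := (hh_eq (hQ.ne1 ha hc (Ne.symm hca)) _).mp h
      by_cases hcb : c = b
      · rw [hcb, ← hσ] at h1
        linarith
      · have h3 := hgap a ha b hb c hc hab' (Ne.symm hca) (Ne.symm hcb)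
        rw [← hσ, h1] at h3
        rcases le_abs.mp h3 with h4 | h4 <;> linarith
    have hB : ∀ c ∈ Q, (hh σ c < hh σ a ∨ c = b) → hh (σ + β) c < hh (σ + β) a := by
      intro c hc h
      rcases h with h | h
      · rcases lt_trichotomy c.1 a.1 with h1 | h1 | h1
        · have h2 := (hh_lt_left h1 _).mp h
          rw [hh_lt_left h1]
          have hac : a ≠ c := by rintro rfl; exact lt_irrefl _ h1
          have hbc : b ≠ c := by rintro rfl; exact lt_asymm h1 hab
          have h3 := hgap a ha b hb c hc hab' hac hbc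
          rw [← hσ] at h3
          rcases le_abs.mp h3 with h4 | h4 <;> linarith
        · rw [hQ.inj c hc a ha h1] at h
          exact absurd h (lt_irrefl _)
        · have h2 := (hh_lt_right h1 _).mp h
          rw [hh_lt_right h1]
          linarith
      · rw [h, hh_lt_right hab, ← hσ]
        linarith
    -- the two counts
    have hup : ∀ p ∈ C a, bel P (σ - β) p ≤
        (q - 1) * M + #{r ∈ C a | hh (σ - β) r < hh (σ - β) p} := by
      intro p hp
      have h1 : {r ∈ P | hh (σ - β) r < hh (σ - β) p} ⊆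
          ({c ∈ Q | hh σ c < hh σ a} : Finset _).biUnion C ∪
            {r ∈ C a | hh (σ - β) r < hh (σ - β) p} := by
        intro r hr
        rw [mem_filter, hP, mem_biUnion] at hr
        obtain ⟨⟨c, hc, hrc⟩, hr2⟩ := hr
        rw [mem_union, mem_biUnion, mem_filter]
        by_cases hca : c = a
        · right
          rw [← hca]
          exact ⟨hrc, hr2⟩
        · left
          refine ⟨c, mem_filter.mpr ⟨hc, ?_⟩, hrc⟩
          rcases lt_or_gt_of_ne (hne c hc hca) with h2 | h2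
          · exact hA c hc h2
          · exfalso
            exact lt_asymm hr2 (hC4 _ hS1 a ha c hc h2 p hp r hrc)
      refine (card_le_card h1).trans ((card_union_le _ _).trans (Nat.add_le_add_right ?_ _))
      refine card_biUnion_le.trans ?_
      rw [sum_congr rfl (fun c hc => hC1 c (mem_filter.mp hc).1), sum_const, smul_eq_mul]
      have h2 : #{c ∈ Q | hh σ c < hh σ a} = q - 1 := hk
      rw [h2]
    have hlo : ∀ p ∈ C a, q * M + #{r ∈ C a | hh (σ + β) r < hh (σ + β) p} ≤
        bel P (σ + β) p := by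
      intro p hp
      have hbn : b ∉ ({c ∈ Q | hh σ c < hh σ a} : Finset _) := by
        intro h
        have h2 := (mem_filter.mp h).2
        rw [hh_lt_right hab, ← hσ] at h2
        exact lt_irrefl _ h2
      have hTQ : ∀ c ∈ insert b ({c ∈ Q | hh σ c < hh σ a} : Finset _), c ∈ Q ∧
          hh (σ + β) c < hh (σ + β) a := by
        intro c hc
        rw [mem_insert, mem_filter] at hc
        rcases hc with rfl | hc
        · exact ⟨hb, hB _ hb (Or.inr rfl)⟩
        · exact ⟨hc.1, hB c hc.1 (Or.inl hc.2)⟩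
      have h1 : (insert b ({c ∈ Q | hh σ c < hh σ a} : Finset _)).biUnion C ∪
            {r ∈ C a | hh (σ + β) r < hh (σ + β) p} ⊆ {r ∈ P | hh (σ + β) r < hh (σ + β) p} := by
        intro r hr
        rw [mem_union, mem_biUnion, mem_filter] at hr
        rw [mem_filter]
        rcases hr with ⟨c, hc, hrc⟩ | hr
        · obtain ⟨hcQ, hca⟩ := hTQ c hc
          exact ⟨hCP c hcQ hrc, hC4 _ hS2 c hcQ a ha hca r hrc p hp⟩
        · exact ⟨hCP a ha hr.1, hr.2⟩
      have h2 : Disjoint ((insert b ({c ∈ Q | hh σ c < hh σ a} : Finset _)).biUnion C)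
          {r ∈ C a | hh (σ + β) r < hh (σ + β) p} := by
        rw [disjoint_left]
        intro r hr hr2
        rw [mem_biUnion] at hr
        obtain ⟨c, hc, hrc⟩ := hr
        obtain ⟨hcQ, hca⟩ := hTQ c hc
        have hne : c ≠ a := by rintro rfl; exact lt_irrefl _ hca
        exact disjoint_left.mp (hC2 c hcQ a ha hne) hrc (mem_filter.mp hr2).1
      have h3 := card_le_card h1
      rw [card_union_of_disjoint h2, card_biUnion (fun c hc c' hc' hcc' =>
        hC2 c (hTQ c hc).1 c' (hTQ c' hc').1 hcc'),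
        sum_congr rfl (fun c hc => hC1 c (hTQ c hc).1), sum_const, card_insert_of_notMem hbn,
        smul_eq_mul] at h3
      have h4 : #{c ∈ Q | hh σ c < hh σ a} = q - 1 := hk
      rw [h4] at h3
      have h5 : q - 1 + 1 = q := by omega
      rw [h5] at h3
      exact h3
    -- splitting of the cluster
    have hsplit : C a ⊆ G (a, b) ∪ ((P \ U) ∪
        ({p ∈ C a | M - (δ + α) / 2 ≤ #{r ∈ C a | hh (σ - β) r < hh (σ - β) p}} ∪
         {p ∈ C a | #{r ∈ C a | hh (σ + β) r < hh (σ + β) p} < (δ + α + 1) / 2})) := by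
      intro p hp
      by_cases h1 : p ∈ U
      swap
      · exact mem_union_right _ (mem_union_left _ (mem_sdiff.mpr ⟨hCP a ha hp, h1⟩))
      by_cases h2 : bel U (σ - β) p < s
      swap
      · refine mem_union_right _ (mem_union_right _ (mem_union_left _ (mem_filter.mpr ⟨hp, ?_⟩)))
        have h3 := hup p hp
        have h4 := hbelUP (σ - β) p
        have h5 : (q - 1) * M + M = q * M := by
          obtain ⟨q', rfl⟩ : ∃ q', q = q' + 1 := ⟨q - 1, by omega⟩
          simp only [Nat.add_sub_cancel]; ring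
        have h6 : 2 * q * M = 2 * (q * M) := by ring
        omega
      by_cases h3 : s ≤ bel U (σ + β) p
      swap
      · refine mem_union_right _ (mem_union_right _ (mem_union_right _ (mem_filter.mpr ⟨hp, ?_⟩)))
        have h4 := hlo p hp
        have h5 := hbelPU (σ + β) p
        have h6 : 2 * q * M = 2 * (q * M) := by ring
        omega
      exact mem_union_left _ (mem_filter.mpr ⟨hp, h1, h2, h3⟩)
    have h1 := (card_le_card hsplit).trans (card_union_le _ _)
    have h2 := card_union_le (P \ U)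
      ({p ∈ C a | M - (δ + α) / 2 ≤ #{r ∈ C a | hh (σ - β) r < hh (σ - β) p}} ∪
         {p ∈ C a | #{r ∈ C a | hh (σ + β) r < hh (σ + β) p} < (δ + α + 1) / 2})
    have h3 := card_union_le
      ({p ∈ C a | M - (δ + α) / 2 ≤ #{r ∈ C a | hh (σ - β) r < hh (σ - β) p}} : Finset _)
      {p ∈ C a | #{r ∈ C a | hh (σ + β) r < hh (σ + β) p} < (δ + α + 1) / 2}
    have h4 := rank_hi (C a) (fun r => hh (σ - β) r) (M - (δ + α) / 2)
    have h5 := rank_lo (C a) (fun r => hh (σ + β) r) ((δ + α + 1) / 2) (by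
      intro p hp
      by_contra hcon
      push Not at hcon
      obtain ⟨x, y, z, hx, hy, hz, hxy, hxz, hyz⟩ := two_lt_card_iff.mp hcon
      rw [mem_filter] at hx hy hz
      refine hC3.col x (hCP a ha hx.1) y (hCP a ha hy.1) z (hCP a ha hz.1) hxy hxz hyz ?_
      rw [(hh_eq (hC3.ne1 (hCP a ha hx.1) (hCP a ha hy.1) hxy) _).mp (hy.2.trans hx.2.symm),
        (hh_eq (hC3.ne1 (hCP a ha hx.1) (hCP a ha hz.1) hxz) _).mp (hz.2.trans hx.2.symm)])
    rw [hC1 a ha] at h1 h4
    omega
  -- the lines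
  have hex : ∀ e p, ∃ r : ℝ × ℝ, e ∈ kes Q (q - 1) → p ∈ G e → r ∈ U ∧ p.1 < r.1 ∧
      sl e.1 e.2 - β ≤ sl p r ∧ sl p r < sl e.1 e.2 + β ∧ bel U (sl p r) p + 1 = s := by
    intro e p
    by_cases hp : p ∈ G e
    · have h := mem_filter.mp hp
      obtain ⟨r, h1, h2, h3, h4, h5⟩ := sweep hU h.2.1 (by linarith : sl e.1 e.2 - β ≤
        sl e.1 e.2 + β) h.2.2.1 h.2.2.2
      exact ⟨r, fun _ _ => ⟨h1, h2, h3, h4, h5⟩⟩
    · exact ⟨p, fun _ h => absurd h hp⟩
  choose g hg using hex
  have hmain : #((kes Q (q - 1)).sigma G) ≤ #(bis_finite U).toFinset := by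
    refine card_le_card_of_injOn (fun z => Line (- sl z.2 (g z.1 z.2)) 1
      (hh (sl z.2 (g z.1 z.2)) z.2)) ?_ ?_
    · rintro ⟨e, p⟩ hz
      rw [mem_coe, mem_sigma] at hz
      obtain ⟨h1, h2, h3, h4, h5⟩ := hg e p hz.1 hz.2
      rw [mem_coe, Set.Finite.mem_toFinset]
      exact bis_of_edge hU hs' (mem_filter.mp hz.2).2.1 h1 h2 h5
    · rintro ⟨e, p⟩ hz ⟨e', p'⟩ hz' h
      rw [mem_coe, mem_sigma] at hz hz'
      simp only at hz hz' h
      obtain ⟨h1, h2, h3, h4, h5⟩ := hg e p hz.1 hz.2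
      obtain ⟨h1', h2', h3', h4', h5'⟩ := hg e' p' hz'.1 hz'.2
      have hpU : p ∈ U := (mem_filter.mp hz.2).2.1
      have hpU' : p' ∈ U := (mem_filter.mp hz'.2).2.1
      have k1 : p' = p ∨ p' = g e p := by
        refine on_line hU hpU h1 hpU' h2 ?_
        rw [h]
        exact mem_line_left _ _
      have k2 : g e' p' = p ∨ g e' p' = g e p := by
        refine on_line hU hpU h1 h1' h2 ?_
        rw [h]
        exact mem_line_right h2'
      have hpp : p' = p ∧ g e' p' = g e p := by
        rcases k1 with k1 | k1 <;> rcases k2 with k2 | k2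
        · rw [k1] at k2
          rw [k1, k2] at h2'
          exact absurd h2' (lt_irrefl _)
        · exact ⟨k1, k2⟩
        · rw [k2, k1] at h2'
          exact absurd h2' (lt_asymm h2)
        · rw [k2, k1] at h2'
          exact absurd h2' (lt_irrefl _)
      obtain ⟨e1, e2⟩ := hpp
      subst e1
      have he := mem_kes.mp hz.1
      have he' := mem_kes.mp hz'.1
      have e3 : e.1 = e'.1 := by
        by_contra hne
        exact disjoint_left.mp (hC2 _ he.1 _ he'.1 hne) (mem_filter.mp hz.2).1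
          (mem_filter.mp hz'.2).1
      have e4 : e.2 = e'.2 := by
        by_contra hne
        have n1 : e.1 ≠ e.2 := by
          intro h; have := he.2.2.1; rw [h] at this; exact lt_irrefl _ this
        have n2 : e.1 ≠ e'.2 := by
          rw [e3]; intro h; have := he'.2.2.1; rw [h] at this; exact lt_irrefl _ this
        have h6 := hgap e.1 he.1 e.2 he.2.1 e'.2 he'.2.1 n1 n2 hne
        rw [e2] at h3' h4'
        rw [← e3] at h3' h4'
        rcases le_abs.mp h6 with h7 | h7 <;> linarith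
      have e5 : e = e' := Prod.ext e3 e4
      subst e5
      rfl
  rw [card_sigma] at hmain
  rw [Set.ncard_eq_toFinset_card _ (bis_finite U)]
  refine le_trans ?_ hmain
  rw [← smul_eq_mul]
  exact card_nsmul_le_sum _ _ _ hGc

end Pool.Agent.FC602
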