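import Pool.Agent.FC602.Rob
import Pool.Agent.KLev.Levels

/-! Arrangements of lines with complex levels that cannot be simplified by few changes. -/

set_option autoImplicit false

namespace Pool.Agent.FC602

open Finset Pool.Agent.TH124.KE
open KLev.Levels (height)

/-- no three lines of `U` pass through a common point -/
def NoThree (U : Finset (ℝ × ℝ)) : Prop :=
  ∀ l ∈ U, ∀ m ∈ U, ∀ j ∈ U, l ≠ m → l ≠ j → m ≠ j →
    ∀ x : ℝ, ¬ (height l x = height m x ∧ height m x = height j x)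

lemma height_hh (l : ℝ × ℝ) (x : ℝ) : height l x = hh (-x) l := by
  unfold height hh; ring

lemma nt_hh {U : Finset (ℝ × ℝ)} (hU : NoThree U) {p q r : ℝ × ℝ} (hp : p ∈ U) (hq : q ∈ U)
    (hr : r ∈ U) (hpq : p ≠ q) (hpr : p ≠ r) (hqr : q ≠ r) (σ : ℝ) (h1 : hh σ q = hh σ p)
    (h2 : hh σ r = hh σ p) : False := by
  refine hU p hp q hq r hr hpq hpr hqr (-σ) ⟨?_, ?_⟩
  · rw [height_hh, height_hh, neg_neg, h1]
  · rw [height_hh, height_hh, neg_neg, h1, h2]

lemma nt_sl {U : Finset (ℝ × ℝ)} (hU : NoThree U) {p q r : ℝ × ℝ} (hp : p ∈ U) (hq : q ∈ U)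
    (hr : r ∈ U) (h1 : p.1 < q.1) (h2 : p.1 < r.1) (h : sl p q = sl p r) : q = r := by
  by_contra hqr
  refine nt_hh hU hp hq hr ?_ ?_ hqr (sl p q) (hh_sl (ne_of_lt h1)) ?_
  · rintro rfl; exact lt_irrefl _ h1
  · rintro rfl; exact lt_irrefl _ h2
  · rw [h]; exact hh_sl (ne_of_lt h2)

/-- `sweep` for lines -/
theorem sweepK {U : Finset (ℝ × ℝ)} (hU : NoThree U) {s : ℕ} {p : ℝ × ℝ} (hp : p ∈ U) {σ1 σ2 : ℝ}
    (h12 : σ1 ≤ σ2) (h1 : bel U σ1 p < s) (h2 : s ≤ bel U σ2 p) :
    ∃ r ∈ U, p.1 < r.1 ∧ σ1 ≤ sl p r ∧ sl p r < σ2 ∧ bel U (sl p r) p + 1 = s := by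
  classical
  set B : Finset ℝ := insert σ2 (({r ∈ U | p.1 < r.1 ∧ σ1 ≤ sl p r ∧ sl p r < σ2 ∧
    s ≤ bel U (sl p r) p} : Finset (ℝ × ℝ)).image (fun r => sl p r)) with hB
  have hBne : B.Nonempty := ⟨σ2, mem_insert_self _ _⟩
  set τ := B.min' hBne with hτ
  have hτB : τ ∈ B := B.min'_mem hBne
  have hτ1 : s ≤ bel U τ p ∧ σ1 ≤ τ ∧ τ ≤ σ2 := by
    rw [hB, mem_insert, mem_image] at hτB
    rcases hτB with h | ⟨r, hr, hr2⟩
    · rw [h]; exact ⟨h2, h12, le_refl _⟩
    · rw [mem_filter] at hr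
      rw [← hr2]
      exact ⟨hr.2.2.2.2, hr.2.2.1, hr.2.2.2.1.le⟩
  set R := ({r ∈ U | p.1 < r.1 ∧ σ1 ≤ sl p r ∧ sl p r < τ} : Finset (ℝ × ℝ)) with hR
  have hRne : R.Nonempty := by
    rw [nonempty_iff_ne_empty]
    intro h
    have h3 := bel_step (U := U) (p := p) hτ1.2.1
    rw [← hR, h, card_empty] at h3
    have := hτ1.1
    omega
  obtain ⟨r, hr, hmax⟩ := R.exists_max_image (fun r => sl p r) hRne
  have hr' := hr
  rw [hR, mem_filter] at hr'
  obtain ⟨hrU, hr1, hr2, hr3⟩ := hr'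
  refine ⟨r, hrU, hr1, hr2, by linarith [hτ1.2.2], ?_⟩
  have h4 : bel U (sl p r) p < s := by
    by_contra h5
    push Not at h5
    have h6 : sl p r ∈ B := by
      rw [hB, mem_insert, mem_image]
      right
      exact ⟨r, mem_filter.mpr ⟨hrU, hr1, hr2, by linarith [hτ1.2.2], h5⟩, rfl⟩
    have := B.min'_le _ h6
    rw [← hτ] at this
    linarith
  have h5 := bel_step (U := U) (p := p) hr3.le
  have h6 : #{r' ∈ U | p.1 < r'.1 ∧ sl p r ≤ sl p r' ∧ sl p r' < τ} ≤ 1 := by
    rw [card_le_one]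
    have key : ∀ x, x ∈ ({r' ∈ U | p.1 < r'.1 ∧ sl p r ≤ sl p r' ∧ sl p r' < τ} : Finset _) →
        x = r := by
      intro x hx
      rw [mem_filter] at hx
      obtain ⟨hx1, hx2, hx3, hx4⟩ := hx
      have hxR : x ∈ R := by
        rw [hR, mem_filter]
        exact ⟨hx1, hx2, hr2.trans hx3, hx4⟩
      exact nt_sl hU hp hx1 hrU hx2 hr1 (le_antisymm (hmax x hxR) hx3)
    intro x hx y hy
    rw [key x hx, key y hy]
  have := hτ1.1
  omega

/-- **Robust lower bound** for all levels -/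
theorem robustK {Q : Finset (ℝ × ℝ)} (hQ : GP Q) (k₀ M : ℕ) :
    ∃ P : Finset (ℝ × ℝ), GP P ∧ #P = #Q * M ∧ ∀ U : Finset (ℝ × ℝ), NoThree U →
      ∀ j d : ℕ, (k₀ + 1) * M ≤ j + 1 + d → j + 1 ≤ (k₀ + 1) * M + d →
      #(kes Q k₀) * (M - (d + 2 * (#(P \ U) + #(U \ P)) + 1)) ≤ #(kes U j) := by
  classical
  obtain ⟨β, hβ, hgap⟩ := exists_gap hQ
  obtain ⟨C, hC1, hC2, hC3, hC4⟩ := blow (Q := Q) M
    ((kes Q k₀).image (fun e => sl e.1 e.2 - β) ∪ (kes Q k₀).image (fun e => sl e.1 e.2 + β))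
  set P := Q.biUnion C with hP
  have hCP : ∀ a ∈ Q, C a ⊆ P := fun a ha => subset_biUnion_of_mem C ha
  have hPc : #P = #Q * M := by
    rw [hP, card_biUnion (fun a ha b hb hab => hC2 a ha b hb hab), sum_congr rfl hC1, sum_const,
      smul_eq_mul]
  refine ⟨P, hC3, hPc, ?_⟩
  intro U hU j d hj1 hj2
  set δ := #(P \ U) with hδ
  set α := #(U \ P) with hα
  have hbelUP : ∀ σ p, bel U σ p ≤ bel P σ p + α := by
    intro σ p
    unfold bel
    refine (card_le_card ?_).trans (card_union_le _ _)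
    intro r hr
    rw [mem_filter] at hr
    rw [mem_union, mem_filter, mem_sdiff]
    by_cases h : r ∈ P
    · exact Or.inl ⟨h, hr.2⟩
    · exact Or.inr ⟨hr.1, h⟩
  have hbelPU : ∀ σ p, bel P σ p ≤ bel U σ p + δ := by
    intro σ p
    unfold bel
    refine (card_le_card ?_).trans (card_union_le _ _)
    intro r hr
    rw [mem_filter] at hr
    rw [mem_union, mem_filter, mem_sdiff]
    by_cases h : r ∈ U
    · exact Or.inl ⟨h, hr.2⟩
    · exact Or.inr ⟨hr.1, h⟩
  set G : (ℝ × ℝ) × (ℝ × ℝ) → Finset (ℝ × ℝ) := fun e =>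
    {p ∈ C e.1 | p ∈ U ∧ bel U (sl e.1 e.2 - β) p < j + 1 ∧ j + 1 ≤ bel U (sl e.1 e.2 + β) p}
    with hG
  -- size of the good sets
  have hGc : ∀ e ∈ kes Q k₀, M - (d + 2 * (δ + α) + 1) ≤ #(G e) := by
    rintro ⟨a, b⟩ he
    have he' := mem_kes.mp he
    obtain ⟨ha, hb, hab, hk⟩ := he'
    simp only at ha hb hab hk
    set σ := sl a b with hσ
    have hab' : a ≠ b := by rintro rfl; exact lt_irrefl _ hab
    have hS1 : σ - β ∈ (kes Q k₀).image (fun e => sl e.1 e.2 - β) ∪
        (kes Q k₀).image (fun e => sl e.1 e.2 + β) :=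
      mem_union_left _ (mem_image.mpr ⟨(a, b), he, rfl⟩)
    have hS2 : σ + β ∈ (kes Q k₀).image (fun e => sl e.1 e.2 - β) ∪
        (kes Q k₀).image (fun e => sl e.1 e.2 + β) :=
      mem_union_right _ (mem_image.mpr ⟨(a, b), he, rfl⟩)
    have hA : ∀ c ∈ Q, hh (σ - β) c < hh (σ - β) a → hh σ c < hh σ a := by
      intro c hc h
      by_cases hcb : c = b
      · rw [hcb] at h
        have := (hh_lt_right hab _).mp h
        rw [← hσ] at this
        linarith
      · rcases lt_trichotomy c.1 a.1 with h1 | h1 | h1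
        · have h2 := (hh_lt_left h1 _).mp h
          rw [hh_lt_left h1]
          have hac : a ≠ c := by rintro rfl; exact lt_irrefl _ h1
          have h3 := hgap a ha b hb c hc hab' hac (Ne.symm hcb)
          rw [← hσ] at h3
          rcases le_abs.mp h3 with h4 | h4 <;> linarith
        · rw [hQ.inj c hc a ha h1] at h
          exact absurd h (lt_irrefl _)
        · have h2 := (hh_lt_right h1 _).mp h
          rw [hh_lt_right h1]
          linarith
    have hne : ∀ c ∈ Q, c ≠ a → hh (σ - β) c ≠ hh (σ - β) a := by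
      intro c hc hca h
      have h1 := (hh_eq (hQ.ne1 ha hc (Ne.symm hca)) _).mp h
      by_cases hcb : c = b
      · rw [hcb, ← hσ] at h1
        linarith
      · have h3 := hgap a ha b hb c hc hab' (Ne.symm hca) (Ne.symm hcb)
        rw [← hσ, h1] at h3
        rcases le_abs.mp h3 with h4 | h4 <;> linarith
    have hB : ∀ c ∈ Q, (hh σ c < hh σ a ∨ c = b) → hh (σ + β) c < hh (σ + β) a := by
      intro c hc h
      rcases h with h | h
      · rcases lt_trichotomy c.1 a.1 with h1 | h1 | h1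
        · have h2 := (hh_lt_left h1 _).mp h
          rw [hh_lt_left h1]
          have hac : a ≠ c := by rintro rfl; exact lt_irrefl _ h1
          have hbc : b ≠ c := by rintro rfl; exact lt_asymm h1 hab
          have h3 := hgap a ha b hb c hc hab' hac hbc
          rw [← hσ] at h3
          rcases le_abs.mp h3 with h4 | h4 <;> linarith
        · rw [hQ.inj c hc a ha h1] at h
          exact absurd h (lt_irrefl _)
        · have h2 := (hh_lt_right h1 _).mp h
          rw [hh_lt_right h1]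
          linarith
      · rw [h, hh_lt_right hab, ← hσ]
        linarith
    -- the two counts
    have hup : ∀ p ∈ C a, bel P (σ - β) p ≤
        k₀ * M + #{r ∈ C a | hh (σ - β) r < hh (σ - β) p} := by
      intro p hp
      have h1 : {r ∈ P | hh (σ - β) r < hh (σ - β) p} ⊆
          ({c ∈ Q | hh σ c < hh σ a} : Finset _).biUnion C ∪
            {r ∈ C a | hh (σ - β) r < hh (σ - β) p} := by
        intro r hr
        rw [mem_filter, hP, mem_biUnion] at hr
        obtain ⟨⟨c, hc, hrc⟩, hr2⟩ := hr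
        rw [mem_union, mem_biUnion, mem_filter]
        by_cases hca : c = a
        · right
          rw [← hca]
          exact ⟨hrc, hr2⟩
        · left
          refine ⟨c, mem_filter.mpr ⟨hc, ?_⟩, hrc⟩
          rcases lt_or_gt_of_ne (hne c hc hca) with h2 | h2
          · exact hA c hc h2
          · exfalso
            exact lt_asymm hr2 (hC4 _ hS1 a ha c hc h2 p hp r hrc)
      refine (card_le_card h1).trans ((card_union_le _ _).trans (Nat.add_le_add_right ?_ _))
      refine card_biUnion_le.trans ?_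
      rw [sum_congr rfl (fun c hc => hC1 c (mem_filter.mp hc).1), sum_const, smul_eq_mul]
      have h2 : #{c ∈ Q | hh σ c < hh σ a} = k₀ := hk
      rw [h2]
    have hlo : ∀ p ∈ C a, (k₀ + 1) * M + #{r ∈ C a | hh (σ + β) r < hh (σ + β) p} ≤
        bel P (σ + β) p := by
      intro p hp
      have hbn : b ∉ ({c ∈ Q | hh σ c < hh σ a} : Finset _) := by
        intro h
        have h2 := (mem_filter.mp h).2
        rw [hh_lt_right hab, ← hσ] at h2
        exact lt_irrefl _ h2
      have hTQ : ∀ c ∈ insert b ({c ∈ Q | hh σ c < hh σ a} : Finset _), c ∈ Q ∧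
          hh (σ + β) c < hh (σ + β) a := by
        intro c hc
        rw [mem_insert, mem_filter] at hc
        rcases hc with rfl | hc
        · exact ⟨hb, hB _ hb (Or.inr rfl)⟩
        · exact ⟨hc.1, hB c hc.1 (Or.inl hc.2)⟩
      have h1 : (insert b ({c ∈ Q | hh σ c < hh σ a} : Finset _)).biUnion C ∪
            {r ∈ C a | hh (σ + β) r < hh (σ + β) p} ⊆ {r ∈ P | hh (σ + β) r < hh (σ + β) p} := by
        intro r hr
        rw [mem_union, mem_biUnion, mem_filter] at hr
        rw [mem_filter]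
        rcases hr with ⟨c, hc, hrc⟩ | hr
        · obtain ⟨hcQ, hca⟩ := hTQ c hc
          exact ⟨hCP c hcQ hrc, hC4 _ hS2 c hcQ a ha hca r hrc p hp⟩
        · exact ⟨hCP a ha hr.1, hr.2⟩
      have h2 : Disjoint ((insert b ({c ∈ Q | hh σ c < hh σ a} : Finset _)).biUnion C)
          {r ∈ C a | hh (σ + β) r < hh (σ + β) p} := by
        rw [disjoint_left]
        intro r hr hr2
        rw [mem_biUnion] at hr
        obtain ⟨c, hc, hrc⟩ := hr
        obtain ⟨hcQ, hca⟩ := hTQ c hc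
        have hne : c ≠ a := by rintro rfl; exact lt_irrefl _ hca
        exact disjoint_left.mp (hC2 c hcQ a ha hne) hrc (mem_filter.mp hr2).1
      have h3 := card_le_card h1
      rw [card_union_of_disjoint h2, card_biUnion (fun c hc c' hc' hcc' =>
        hC2 c (hTQ c hc).1 c' (hTQ c' hc').1 hcc'),
        sum_congr rfl (fun c hc => hC1 c (hTQ c hc).1), sum_const, card_insert_of_notMem hbn,
        smul_eq_mul] at h3
      have h4 : #{c ∈ Q | hh σ c < hh σ a} = k₀ := hk
      rw [h4] at h3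
      exact h3
    have h5' : (k₀ + 1) * M = k₀ * M + M := by ring
    -- splitting of the cluster
    have hsplit : C a ⊆ G (a, b) ∪ ((P \ U) ∪
        ({p ∈ C a | j + 1 - (k₀ * M + α) ≤ #{r ∈ C a | hh (σ - β) r < hh (σ - β) p}} ∪
         {p ∈ C a | #{r ∈ C a | hh (σ + β) r < hh (σ + β) p} < j + 1 + δ - (k₀ + 1) * M})) := by
      intro p hp
      by_cases h1 : p ∈ U
      swap
      · exact mem_union_right _ (mem_union_left _ (mem_sdiff.mpr ⟨hCP a ha hp, h1⟩))
      by_cases h2 : bel U (σ - β) p < j + 1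
      swap
      · refine mem_union_right _ (mem_union_right _ (mem_union_left _ (mem_filter.mpr ⟨hp, ?_⟩)))
        have h3 := hup p hp
        have h4 := hbelUP (σ - β) p
        omega
      by_cases h3 : j + 1 ≤ bel U (σ + β) p
      swap
      · refine mem_union_right _ (mem_union_right _ (mem_union_right _ (mem_filter.mpr ⟨hp, ?_⟩)))
        have h4 := hlo p hp
        have h5 := hbelPU (σ + β) p
        omega
      exact mem_union_left _ (mem_filter.mpr ⟨hp, h1, h2, h3⟩)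
    have h1 := (card_le_card hsplit).trans (card_union_le _ _)
    have h2 := card_union_le (P \ U)
      ({p ∈ C a | j + 1 - (k₀ * M + α) ≤ #{r ∈ C a | hh (σ - β) r < hh (σ - β) p}} ∪
         {p ∈ C a | #{r ∈ C a | hh (σ + β) r < hh (σ + β) p} < j + 1 + δ - (k₀ + 1) * M})
    have h3 := card_union_le
      ({p ∈ C a | j + 1 - (k₀ * M + α) ≤ #{r ∈ C a | hh (σ - β) r < hh (σ - β) p}} : Finset _)
      {p ∈ C a | #{r ∈ C a | hh (σ + β) r < hh (σ + β) p} < j + 1 + δ - (k₀ + 1) * M}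
    have h4 := rank_hi (C a) (fun r => hh (σ - β) r) (j + 1 - (k₀ * M + α))
    have h5 := rank_lo (C a) (fun r => hh (σ + β) r) (j + 1 + δ - (k₀ + 1) * M) (by
      intro p hp
      by_contra hcon
      push Not at hcon
      obtain ⟨x, y, z, hx, hy, hz, hxy, hxz, hyz⟩ := two_lt_card_iff.mp hcon
      rw [mem_filter] at hx hy hz
      refine hC3.col x (hCP a ha hx.1) y (hCP a ha hy.1) z (hCP a ha hz.1) hxy hxz hyz ?_
      rw [(hh_eq (hC3.ne1 (hCP a ha hx.1) (hCP a ha hy.1) hxy) _).mp (hy.2.trans hx.2.symm),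
        (hh_eq (hC3.ne1 (hCP a ha hx.1) (hCP a ha hz.1) hxz) _).mp (hz.2.trans hx.2.symm)])
    rw [hC1 a ha] at h1 h4
    omega
  -- the pairs
  have hex : ∀ e p, ∃ r : ℝ × ℝ, e ∈ kes Q k₀ → p ∈ G e → r ∈ U ∧ p.1 < r.1 ∧
      sl e.1 e.2 - β ≤ sl p r ∧ sl p r < sl e.1 e.2 + β ∧ bel U (sl p r) p + 1 = j + 1 := by
    intro e p
    by_cases hp : p ∈ G e
    · have h := mem_filter.mp hp
      obtain ⟨r, h1, h2, h3, h4, h5⟩ := sweepK hU h.2.1 (by linarith : sl e.1 e.2 - β ≤
        sl e.1 e.2 + β) h.2.2.1 h.2.2.2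
      exact ⟨r, fun _ _ => ⟨h1, h2, h3, h4, h5⟩⟩
    · exact ⟨p, fun _ h => absurd h hp⟩
  choose g hg using hex
  have hmain : #((kes Q k₀).sigma G) ≤ #(kes U j) := by
    refine card_le_card_of_injOn (fun z => (z.2, g z.1 z.2)) ?_ ?_
    · rintro ⟨e, p⟩ hz
      rw [mem_coe, mem_sigma] at hz
      obtain ⟨h1, h2, h3, h4, h5⟩ := hg e p hz.1 hz.2
      rw [mem_coe, mem_kes]
      exact ⟨(mem_filter.mp hz.2).2.1, h1, h2, by simp only; omega⟩
    · rintro ⟨e, p⟩ hz ⟨e', p'⟩ hz' h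
      rw [mem_coe, mem_sigma] at hz hz'
      simp only [Prod.mk.injEq] at hz hz' h
      obtain ⟨h1, h2, h3, h4, h5⟩ := hg e p hz.1 hz.2
      obtain ⟨h1', h2', h3', h4', h5'⟩ := hg e' p' hz'.1 hz'.2
      obtain ⟨e1, e2⟩ := h
      subst e1
      have he := mem_kes.mp hz.1
      have he' := mem_kes.mp hz'.1
      have e3 : e.1 = e'.1 := by
        by_contra hne
        exact disjoint_left.mp (hC2 _ he.1 _ he'.1 hne) (mem_filter.mp hz.2).1
          (mem_filter.mp hz'.2).1
      have e4 : e.2 = e'.2 := by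
        by_contra hne
        have n1 : e.1 ≠ e.2 := by
          intro h; have := he.2.2.1; rw [h] at this; exact lt_irrefl _ this
        have n2 : e.1 ≠ e'.2 := by
          rw [e3]; intro h; have := he'.2.2.1; rw [h] at this; exact lt_irrefl _ this
        have h6 := hgap e.1 he.1 e.2 he.2.1 e'.2 he'.2.1 n1 n2 hne
        rw [← e2] at h3' h4'
        rw [← e3] at h3' h4'
        rcases le_abs.mp h6 with h7 | h7 <;> linarith
      have e5 : e = e' := Prod.ext e3 e4
      subst e5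
      rfl
  rw [card_sigma] at hmain
  refine le_trans ?_ hmain
  rw [← smul_eq_mul]
  exact card_nsmul_le_sum _ _ _ hGc

end Pool.Agent.FC602
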