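import Pool.Agent.FC602.Ins
import Pool.Agent.Y429.HalvFew

/-! A point which changes sides yields a bisector; blow-ups. -/

set_option autoImplicit false

namespace Pool.Agent.FC602

open Finset Pool.Agent.TH124.KE
open Pool.Agent.W296.HL (Gen cr IsBisector Line)

lemma bel_step {U : Finset (ℝ × ℝ)} {p : ℝ × ℝ} {σ τ : ℝ} (h : σ ≤ τ) :
    bel U τ p ≤ bel U σ p + #{r ∈ U | p.1 < r.1 ∧ σ ≤ sl p r ∧ sl p r < τ} := by
  classical
  unfold bel
  refine (card_le_card ?_).trans (card_union_le _ _)
  intro r hr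
  rw [mem_filter] at hr
  rw [mem_union, mem_filter, mem_filter]
  rcases lt_trichotomy r.1 p.1 with h1 | h1 | h1
  · left
    refine ⟨hr.1, ?_⟩
    rw [hh_lt_left h1]
    have := (hh_lt_left h1 τ).mp hr.2
    linarith
  · left
    refine ⟨hr.1, ?_⟩
    have h2 := hr.2
    unfold hh at h2 ⊢
    rw [h1] at h2 ⊢
    linarith
  · have h2 := (hh_lt_right h1 τ).mp hr.2
    by_cases h3 : sl p r < σ
    · left
      exact ⟨hr.1, (hh_lt_right h1 σ).mpr h3⟩
    · right
      exact ⟨hr.1, h1, not_lt.mp h3, h2⟩

lemma gen_sl {U : Finset (ℝ × ℝ)} (hU : Gen U) {p q r : ℝ × ℝ} (hp : p ∈ U) (hq : q ∈ U)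
    (hr : r ∈ U) (h1 : p.1 < q.1) (h2 : p.1 < r.1) (h : sl p q = sl p r) : q = r := by
  by_contra hqr
  refine hU p hp q hq r hr ?_ ?_ hqr ?_
  · rintro rfl; exact lt_irrefl _ h1
  · rintro rfl; exact lt_irrefl _ h2
  · unfold sl at h
    rw [div_eq_div_iff (by linarith) (by linarith)] at h
    unfold cr
    linarith

/-- **Sweep**: if `p` is among the `s` lowest points in the direction `σ1` and not in the direction
`σ2`, then `p` is the left endpoint of an edge of slope in between with `s - 1` points below. -/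
theorem sweep {U : Finset (ℝ × ℝ)} (hU : Gen U) {s : ℕ} {p : ℝ × ℝ} (hp : p ∈ U) {σ1 σ2 : ℝ}
    (h12 : σ1 ≤ σ2) (h1 : bel U σ1 p < s) (h2 : s ≤ bel U σ2 p) :
    ∃ r ∈ U, p.1 < r.1 ∧ σ1 ≤ sl p r ∧ sl p r < σ2 ∧ bel U (sl p r) p + 1 = s := by
  classical
  set B : Finset ℝ := insert σ2 (({r ∈ U | p.1 < r.1 ∧ σ1 ≤ sl p r ∧ sl p r < σ2 ∧
    s ≤ bel U (sl p r) p} : Finset (ℝ × ℝ)).image (fun r => sl p r)) with hB
  have hBne : B.Nonempty := ⟨σ2, mem_insert_self _ _⟩
  set τ := B.min' hBne with hτ
  have hτB : τ ∈ B := B.min'_mem hBne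
  have hτ1 : s ≤ bel U τ p ∧ σ1 ≤ τ ∧ τ ≤ σ2 := by
    rw [hB, mem_insert, mem_image] at hτB
    rcases hτB with h | ⟨r, hr, hr2⟩
    · rw [h]; exact ⟨h2, h12, le_refl _⟩
    · rw [mem_filter] at hr
      rw [← hr2]
      exact ⟨hr.2.2.2.2, hr.2.2.1, hr.2.2.2.1.le⟩
  set R := ({r ∈ U | p.1 < r.1 ∧ σ1 ≤ sl p r ∧ sl p r < τ} : Finset (ℝ × ℝ)) with hR
  have hRne : R.Nonempty := by
    rw [nonempty_iff_ne_empty]
    intro h
    have h3 := bel_step (U := U) (p := p) hτ1.2.1
    rw [← hR, h, card_empty] at h3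
    have := hτ1.1
    omega
  obtain ⟨r, hr, hmax⟩ := R.exists_max_image (fun r => sl p r) hRne
  have hr' := hr
  rw [hR, mem_filter] at hr'
  obtain ⟨hrU, hr1, hr2, hr3⟩ := hr'
  refine ⟨r, hrU, hr1, hr2, by linarith [hτ1.2.2], ?_⟩
  have h4 : bel U (sl p r) p < s := by
    by_contra h5
    push Not at h5
    have h6 : sl p r ∈ B := by
      rw [hB, mem_insert, mem_image]
      right
      exact ⟨r, mem_filter.mpr ⟨hrU, hr1, hr2, by linarith [hτ1.2.2], h5⟩, rfl⟩
    have := B.min'_le _ h6
    rw [← hτ] at this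
    linarith
  have h5 := bel_step (U := U) (p := p) hr3.le
  have h6 : #{r' ∈ U | p.1 < r'.1 ∧ sl p r ≤ sl p r' ∧ sl p r' < τ} ≤ 1 := by
    rw [card_le_one]
    have key : ∀ x, x ∈ ({r' ∈ U | p.1 < r'.1 ∧ sl p r ≤ sl p r' ∧ sl p r' < τ} : Finset _) →
        x = r := by
      intro x hx
      rw [mem_filter] at hx
      obtain ⟨hx1, hx2, hx3, hx4⟩ := hx
      have hxR : x ∈ R := by
        rw [hR, mem_filter]
        exact ⟨hx1, hx2, hr2.trans hx3, hx4⟩
      exact gen_sl hU hp hx1 hrU hx2 hr1 (le_antisymm (hmax x hxR) hx3)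
    intro x hx y hy
    rw [key x hx, key y hy]
  have := hτ1.1
  omega

open Classical in
/-- the line of such an edge is a bisector -/
lemma bis_of_edge {U : Finset (ℝ × ℝ)} (hU : Gen U) {s : ℕ} (hs : #U = 2 * s) {p r : ℝ × ℝ}
    (hp : p ∈ U) (hr : r ∈ U) (hpr : p.1 < r.1) (h : bel U (sl p r) p + 1 = s) :
    IsBisector U (Line (- sl p r) 1 (hh (sl p r) p)) := by
  set σ := sl p r with hσ
  have hrσ : hh σ r = hh σ p := hh_sl (ne_of_lt hpr)
  have hne : p ≠ r := by rintro rfl; exact lt_irrefl _ hpr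
  refine ⟨- σ, 1, hh σ p, Or.inr one_ne_zero, rfl, ⟨p, hp, r, hr, hne, ?_, ?_⟩, ?_, ?_⟩
  · simp only [Line, Set.mem_ofPred_eq]; unfold hh; ring
  · simp only [Line, Set.mem_ofPred_eq]; rw [← hrσ]; unfold hh; ring
  · have h1 : #{x ∈ U | -σ * x.1 + 1 * x.2 < hh σ p} = bel U σ p := by
      unfold bel
      congr 1
      ext x
      rw [mem_filter, mem_filter]
      refine and_congr_right fun _ => ?_
      unfold hh
      constructor <;> intro h <;> linarith
    rw [h1, hs]
    omega
  · have h1 : #{x ∈ U | -σ * x.1 + 1 * x.2 < hh σ p} = bel U σ p := by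
      unfold bel
      congr 1
      ext x
      rw [mem_filter, mem_filter]
      refine and_congr_right fun _ => ?_
      unfold hh
      constructor <;> intro h <;> linarith
    have h2 : #U = #{x ∈ U | -σ * x.1 + 1 * x.2 < hh σ p} +
        (#{x ∈ U | hh σ p < -σ * x.1 + 1 * x.2} + #({p, r} : Finset (ℝ × ℝ))) := by
      rw [← card_union_of_disjoint, ← card_union_of_disjoint]
      · congr 1
        ext x
        rw [mem_union, mem_union, mem_filter, mem_filter, mem_insert, mem_singleton]
        constructor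
        · intro hx
          rcases lt_trichotomy (-σ * x.1 + 1 * x.2) (hh σ p) with h3 | h3 | h3
          · exact Or.inl ⟨hx, h3⟩
          · right; right
            by_contra hcon
            push Not at hcon
            refine hU p hp r hr x hx hne (Ne.symm hcon.1) (Ne.symm hcon.2) ?_
            have h4 : x.2 - p.2 = σ * (x.1 - p.1) := by
              unfold hh at h3; linarith
            have h5 : σ * (r.1 - p.1) = r.2 - p.2 := by
              rw [hσ]; unfold sl; rw [div_mul_cancel₀ _ (by linarith)]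
            unfold cr
            rw [h4, ← h5]
            ring
          · exact Or.inr (Or.inl ⟨hx, h3⟩)
        · rintro (hx | hx | hx | hx)
          · exact hx.1
          · exact hx.1
          · rw [hx]; exact hp
          · rw [hx]; exact hr
      · rw [disjoint_left]
        intro x hx hx2
        rw [mem_filter] at hx
        rw [mem_union, mem_filter, mem_insert, mem_singleton] at hx2
        rcases hx2 with h3 | h3 | h3
        · exact lt_asymm hx.2 h3.2
        · rw [h3] at hx
          have := hx.2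
          unfold hh at this
          linarith
        · rw [h3] at hx
          have := hx.2
          rw [← hrσ] at this
          unfold hh at this
          linarith
      · rw [disjoint_left]
        intro x hx hx2
        rw [mem_filter] at hx
        rw [mem_insert, mem_singleton] at hx2
        rcases hx2 with h3 | h3
        · rw [h3] at hx
          have := hx.2
          unfold hh at this
          linarith
        · rw [h3] at hx
          have := hx.2
          rw [← hrσ] at this
          unfold hh at this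
          linarith
    rw [card_pair hne, h1, hs] at h2
    rw [hs]
    omega

/-- few elements have high rank -/
lemma rank_hi {α : Type*} (C : Finset α) (f : α → ℝ) (j : ℕ) :
    #{p ∈ C | j ≤ #{r ∈ C | f r < f p}} ≤ #C - j := by
  classical
  set B := ({p ∈ C | j ≤ #{r ∈ C | f r < f p}} : Finset α) with hB
  rcases B.eq_empty_or_nonempty with h | h
  · rw [h, card_empty]; exact Nat.zero_le _
  · obtain ⟨p0, hp0, hmin⟩ := B.exists_min_image f h
    have h1 : j ≤ #{r ∈ C | f r < f p0} := by
      have := hp0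
      rw [hB, mem_filter] at this
      exact this.2
    have h2 : Disjoint B {r ∈ C | f r < f p0} := by
      rw [disjoint_left]
      intro x hx hx2
      exact absurd (mem_filter.mp hx2).2 (not_lt.mpr (hmin x hx))
    have h3 : #(B ∪ {r ∈ C | f r < f p0}) ≤ #C := by
      apply card_le_card
      apply union_subset
      · exact filter_subset _ _
      · exact filter_subset _ _
    rw [card_union_of_disjoint h2] at h3
    omega

/-- few elements have low rank, if the fibres are small -/
lemma rank_lo {α : Type*} (C : Finset α) (f : α → ℝ) (j : ℕ)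
    (hf : ∀ p ∈ C, #{r ∈ C | f r = f p} ≤ 2) :
    #{p ∈ C | #{r ∈ C | f r < f p} < j} ≤ j + 1 := by
  classical
  set B := ({p ∈ C | #{r ∈ C | f r < f p} < j} : Finset α) with hB
  rcases B.eq_empty_or_nonempty with h | h
  · rw [h, card_empty]; exact Nat.zero_le _
  · obtain ⟨p0, hp0, hmax⟩ := B.exists_max_image f h
    have h1 : #{r ∈ C | f r < f p0} < j := by
      have := hp0
      rw [hB, mem_filter] at this
      exact this.2
    have hp0C : p0 ∈ C := (mem_filter.mp hp0).1
    have h2 : B ⊆ {r ∈ C | f r < f p0} ∪ {r ∈ C | f r = f p0} := by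
      intro x hx
      have hxC : x ∈ C := (mem_filter.mp hx).1
      rw [mem_union, mem_filter, mem_filter]
      rcases (hmax x hx).lt_or_eq with h3 | h3
      · exact Or.inl ⟨hxC, h3⟩
      · exact Or.inr ⟨hxC, h3⟩
    have h3 := (card_le_card h2).trans (card_union_le _ _)
    have := hf p0 hp0C
    omega

/-- **Blow-up**: every point is replaced by a small cluster of `M` points. -/
theorem blow {Q : Finset (ℝ × ℝ)} (M : ℕ) (Sg : Finset ℝ) :
    ∃ C : ℝ × ℝ → Finset (ℝ × ℝ), (∀ a ∈ Q, #(C a) = M) ∧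
      (∀ a ∈ Q, ∀ b ∈ Q, a ≠ b → Disjoint (C a) (C b)) ∧ GP (Q.biUnion C) ∧
      ∀ σ ∈ Sg, ∀ a ∈ Q, ∀ b ∈ Q, hh σ a < hh σ b → ∀ x ∈ C a, ∀ y ∈ C b, hh σ x < hh σ y := by
  classical
  set N := #Q * M with hN
  set g : Fin N → Q := fun l => Q.equivFin.symm (finProdFinEquiv.symm l).1 with hg
  set P0 : Fin N → ℝ × ℝ := fun l => (g l : ℝ × ℝ) with hP0
  have hev : ∀ᶠ P : Fin N → ℝ × ℝ in nhds P0, ∀ σ ∈ Sg, ∀ l l' : Fin N,
      hh σ (P0 l) < hh σ (P0 l') → hh σ (P l) < hh σ (P l') := by
    rw [Finset.eventually_all]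
    intro σ hσ
    rw [Filter.eventually_all]; intro l
    rw [Filter.eventually_all]; intro l'
    by_cases h : hh σ (P0 l) < hh σ (P0 l')
    · have hc : ∀ l : Fin N, Continuous (fun P : Fin N → ℝ × ℝ => hh σ (P l)) := by
        intro l
        unfold hh
        fun_prop
      filter_upwards [((hc l).tendsto P0).eventually_lt ((hc l').tendsto P0) h] with P hP _
      exact hP
    · exact Filter.Eventually.of_forall (fun _ h' => absurd h' h)
  obtain ⟨P, hP1, hP⟩ := Pool.Agent.Y344.KD.exists_near P0 hev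
  have hPinj : Function.Injective P := fun i j h => hP.1 i j (by rw [h])
  refine ⟨fun a => (univ.filter (fun l => P0 l = a)).image P, ?_, ?_, ?_, ?_⟩
  · intro a ha
    rw [card_image_of_injective _ hPinj]
    have h1 : (univ.filter (fun l : Fin N => P0 l = a)) =
        (univ : Finset (Fin M)).map ⟨fun k => finProdFinEquiv (Q.equivFin ⟨a, ha⟩, k), by
          intro k k' h
          have := finProdFinEquiv.injective h
          exact (Prod.mk.inj this).2⟩ := by
      ext l
      rw [mem_filter, mem_map]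
      simp only [mem_univ, true_and]
      constructor
      · intro h
        refine ⟨(finProdFinEquiv.symm l).2, ?_⟩
        have h2 : g l = ⟨a, ha⟩ := Subtype.ext h
        have h3 : (finProdFinEquiv.symm l).1 = Q.equivFin ⟨a, ha⟩ := by
          rw [← h2, hg]
          simp
        change finProdFinEquiv (Q.equivFin ⟨a, ha⟩, (finProdFinEquiv.symm l).2) = l
        rw [← h3]
        exact finProdFinEquiv.apply_symm_apply l
      · rintro ⟨k, rfl⟩
        change ((Q.equivFin.symm (finProdFinEquiv.symm (finProdFinEquiv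
          (Q.equivFin ⟨a, ha⟩, k))).1 : Q) : ℝ × ℝ) = a
        rw [Equiv.symm_apply_apply]
        simp
    rw [h1, card_map, card_univ, Fintype.card_fin]
  · intro a ha b hb hab
    rw [disjoint_left]
    intro x hx hx2
    rw [mem_image] at hx hx2
    obtain ⟨l, hl, rfl⟩ := hx
    obtain ⟨l', hl', h⟩ := hx2
    rw [hPinj h] at hl'
    exact hab ((mem_filter.mp hl).2.symm.trans (mem_filter.mp hl').2)
  · have h1 : Q.biUnion (fun a => (univ.filter (fun l => P0 l = a)).image P) = univ.image P := by
      ext x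
      simp only [mem_biUnion, mem_image, mem_filter, mem_univ, true_and]
      constructor
      · rintro ⟨a, ha, l, hl, rfl⟩
        exact ⟨l, rfl⟩
      · rintro ⟨l, rfl⟩
        exact ⟨P0 l, (g l).2, l, rfl, rfl⟩
    rw [h1]
    exact Pool.Agent.Y344.KD.ke_gp hP
  · intro σ hσ a ha b hb hab x hx y hy
    rw [mem_image] at hx hy
    obtain ⟨l, hl, rfl⟩ := hx
    obtain ⟨l', hl', rfl⟩ := hy
    apply hP1 σ hσ
    rw [(mem_filter.mp hl).2, (mem_filter.mp hl').2]
    exact hab

end Pool.Agent.FC602
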