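import Pool.Agent.Y344.KD.Pert
import Pool.Agent.Y344.KD.Win
import Pool.Agent.TH124.KE.Total

/-! The number of the pairs of points whose number of points below lies in a given set; ranks. -/

set_option autoImplicit false

namespace Pool.Agent.FC602

open Finset Pool.Agent.TH124.KE

open Classical in
/-- the pairs with the number of points below in `W` -/
noncomputable def kesW (V : Finset (ℝ × ℝ)) (W : Finset ℕ) : Finset ((ℝ × ℝ) × (ℝ × ℝ)) :=
  (V ×ˢ V).filter (fun e => e.1.1 < e.2.1 ∧ bel V (sl e.1 e.2) e.1 ∈ W)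

lemma mem_kesW {V : Finset (ℝ × ℝ)} {W : Finset ℕ} {e : (ℝ × ℝ) × (ℝ × ℝ)} :
    e ∈ kesW V W ↔ e.1 ∈ V ∧ e.2 ∈ V ∧ e.1.1 < e.2.1 ∧ bel V (sl e.1 e.2) e.1 ∈ W := by
  classical
  unfold kesW
  rw [mem_filter, mem_product]
  tauto

/-- **Window bound** for a finite set of points. -/
theorem win {V : Finset (ℝ × ℝ)} (hV : GP V) (W : Finset ℕ) {K : ℕ} (hW : ∀ k ∈ W, k ≤ K) :
    ((kesW V W).card : ℝ) ≤
      18 * #V * (((K : ℝ) + 1) ^ (1 / 3 : ℝ) * (#W : ℝ) ^ (2 / 3 : ℝ)) := by
  classical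
  set n := #V with hn
  obtain ⟨e⟩ : Nonempty (Fin n ≃ V) := ⟨(V.equivFin).symm⟩
  set p : Fin n → ℝ × ℝ := fun i => (e i : ℝ × ℝ) with hp
  have hpV : ∀ i, p i ∈ V := fun i => (e i).2
  have hpinj : Function.Injective p := fun i j h => e.injective (Subtype.ext h)
  have hpsurj : ∀ v ∈ V, ∃ i, p i = v := fun v hv => ⟨e.symm ⟨v, hv⟩, by simp [hp]⟩
  set a : Fin n → ℝ := fun i => (p i).1 with ha
  set B : Fin n → ℝ := fun i => (p i).2 with hB
  have hne : ∀ i j, i ≠ j → a i ≠ a j := by
    intro i j hij h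
    exact hij (hpinj (hV.inj _ (hpV i) _ (hpV j) h))
  have hS : Pool.Agent.Results.MP_a08d0a_co.SmoothedLevel.Simple a B := by
    refine ⟨fun i j hij h => absurd h (hne i j hij), ?_⟩
    rintro i j l hij hil hjl ⟨x, h1, h2⟩
    unfold Pool.Agent.H189R2.Lev.ht at h1 h2
    refine hV.col (p i) (hpV i) (p j) (hpV j) (p l) (hpV l) (fun h => hij (hpinj h))
      (fun h => hil (hpinj h)) (fun h => hjl (hpinj h)) ?_
    have e1 : sl (p i) (p j) = -x := by
      unfold sl
      rw [div_eq_iff (sub_ne_zero.mpr (hne j i hij.symm))]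
      simp only [ha, hB] at h1
      linarith
    have e2 : sl (p i) (p l) = -x := by
      unfold sl
      rw [div_eq_iff (sub_ne_zero.mpr (hne l i hil.symm))]
      simp only [ha, hB] at h2
      linarith
    rw [e1, e2]
  obtain ⟨P, hP, hPl⟩ := Pool.Agent.Y344.KD.exists_GP hS
  refine le_trans ?_ (Pool.Agent.Y344.KD.window hP W hW)
  rw [Nat.cast_le]
  refine card_le_card_of_surjOn (fun q : Fin n × Fin n => (p q.2, p q.1)) ?_
  rintro ⟨u, v⟩ huv
  rw [mem_coe, mem_kesW] at huv
  obtain ⟨hu, hv, h1, h2⟩ := huv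
  obtain ⟨j, rfl⟩ := hpsurj u hu
  obtain ⟨i, rfl⟩ := hpsurj v hv
  simp only at h1 h2
  obtain ⟨h3, h4⟩ := hPl i j h1
  refine ⟨(i, j), ?_, rfl⟩
  rw [mem_coe]
  unfold Pool.Agent.Y344.KD.EW
  rw [mem_filter, Pool.Agent.H189R2.Iid.mem_T]
  refine ⟨h3, ?_⟩
  have h5 : Pool.Agent.H189R2.Iid.lev P (i, j) = bel V (sl (p j) (p i)) (p j) := by
    unfold Pool.Agent.H189R2.Iid.lev bel
    refine card_bij (fun l _ => p l) ?_ ?_ ?_
    · intro l hl
      rw [mem_filter] at hl ⊢
      refine ⟨hpV l, ?_⟩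
      have h6 := (h4 l).mp hl.2
      unfold Pool.Agent.H189R2.Lev.ht Pool.Agent.H189R2.Lev.cr at h6
      have h7 : sl (p j) (p i) = -((B j - B i) / (a i - a j)) := by
        unfold sl
        simp only [ha, hB]
        rw [← neg_div, neg_sub]
      have h8 : hh (sl (p j) (p i)) (p j) = hh (sl (p j) (p i)) (p i) :=
        (hh_sl (ne_of_lt h1)).symm
      rw [h8]
      unfold hh
      rw [h7]
      simp only [ha, hB] at h6 ⊢
      linarith
    · intro l hl l' hl' h
      exact hpinj h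
    · intro r hr
      rw [mem_filter] at hr
      obtain ⟨l, rfl⟩ := hpsurj r hr.1
      refine ⟨l, ?_, rfl⟩
      rw [mem_filter]
      refine ⟨mem_univ _, (h4 l).mpr ?_⟩
      have h6 := hr.2
      unfold Pool.Agent.H189R2.Lev.ht Pool.Agent.H189R2.Lev.cr
      have h7 : sl (p j) (p i) = -((B j - B i) / (a i - a j)) := by
        unfold sl
        simp only [ha, hB]
        rw [← neg_div, neg_sub]
      have h8 : hh (sl (p j) (p i)) (p j) = hh (sl (p j) (p i)) (p i) :=
        (hh_sl (ne_of_lt h1)).symm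
      rw [h8] at h6
      unfold hh at h6
      rw [h7] at h6
      simp only [ha, hB] at h6 ⊢
      linarith
  rw [h5]
  exact h2

/-- an element of given rank -/
lemma exists_rank {α : Type*} (S : Finset α) (f : α → ℝ) (hf : Set.InjOn f S) {k : ℕ}
    (hk : k < #S) : ∃ a ∈ S, #{b ∈ S | f b < f a} = k := by
  classical
  induction S using Finset.induction_on_max_value f generalizing k with
  | empty => simp at hk
  | insert a S ha hmax ih =>
    have hf' : Set.InjOn f S := hf.mono (by simp)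
    have hlt : ∀ x ∈ S, f x < f a := by
      intro x hx
      refine lt_of_le_of_ne (hmax x hx) ?_
      intro h
      have := hf (by simp [hx]) (by simp) h
      subst this
      exact ha hx
    rw [card_insert_of_notMem ha] at hk
    by_cases hk' : k < #S
    · obtain ⟨b, hb, hb2⟩ := ih hf' hk'
      refine ⟨b, mem_insert_of_mem hb, ?_⟩
      rw [filter_insert, if_neg (not_lt.mpr (hlt b hb).le)]
      exact hb2
    · refine ⟨a, mem_insert_self _ _, ?_⟩
      rw [filter_insert, if_neg (lt_irrefl _), filter_true_of_mem hlt]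
      omega

end Pool.Agent.FC602
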